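import Pool.Agent.Lib_helper76.UE12.Tw3
import Pool.Agent.Lib_helper87.FAM.TwL

/-!
# Points of order twelve: the clause
-/

set_option autoImplicit false

namespace Pool.Agent.FK4

open Pool.Agent.MK4 WeierstrassCurve.Affine

variable {k : Type*} [Field k] [DecidableEq k] [CharZero k] {W : WeierstrassCurve.Affine k}
  {F : Type*} [Field F] [Algebra k F] {X Y : F}

/-- **points of order twelve** -/
theorem twelve (hg : Generic W X Y) (P : W.Point) (h : addOrderOf P = 12) : Twelve P X Y :=
  twelve_of'' hg P h (line12a hg)

end Pool.Agent.FK4
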