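import Pool.Agent.Lib_helper76.UE12.W
import Pool.Agent.Lib_helper87.FAM.T12t
import Pool.Agent.Lib_helper24.FAM.LC

/-!
# Points of order twelve: the clause
-/

set_option autoImplicit false

namespace Pool.Agent.FK4

open Pool.Agent.MK4 WeierstrassCurve.Affine
open Pool.Agent.TN (Wt)
open Pool.Agent.UEG (P0)
open Pool.Agent.UE12 (OK12 ok_of unitEq12')

variable {k : Type*} [Field k] [DecidableEq k] [CharZero k] {W : WeierstrassCurve.Affine k}
  {F : Type*} [Field F] [Algebra k F] {X Y : F}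

/-- **points of order twelve**, from the closed elements -/
theorem twelve_of (hC : ∀ {t : k} {x y : F}, t ≠ 0 → 1 - t ≠ 0 → 2 * t - 1 ≠ 0 →
      2 * t ^ 2 - 2 * t + 1 ≠ 0 → 3 * t ^ 2 - 3 * t + 1 ≠ 0 → OK12 t → ∀ hb : UE12.bb t ≠ 0,
      addOrderOf (P0 (UE12.cc t) hb) = 12 → Generic (Wt (UE12.bb t) (UE12.cc t)) x y →
      OnlyConst (AddSubgroup.zmultiples (P0 (UE12.cc t) hb)) x y)
    (hg : Generic W X Y) (P : W.Point) (h : addOrderOf P = 12)
    (a1 : To12t 2 P X Y → ClosedIn (AddSubgroup.zmultiples P) X Y ⊥)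
    (a2 : To12t (3 / 2) P X Y → ClosedIn (AddSubgroup.zmultiples P) X Y ⊥)
    (a3 : To12t (3 / 4) P X Y → ClosedIn (AddSubgroup.zmultiples P) X Y ⊥)
    (a4 : To12t (2 / 3) P X Y → Line P X Y) : Twelve P X Y := by
  obtain ⟨t, x, y, hb, ht, h1, h2, hv, hw, hT, hg', hO, hS, -, h3⟩ := tate12u hg P h
  refine ⟨t, UE12.bb t, UE12.cc t, x, y, ?_, rfl, hT, fun hi ha => ?_, ?_, ?_⟩
  · unfold UE12.cc; congr 1; ring
  · have hok := ok_of hw hi ha
    refine ⟨unitEq12' ht h1 h2 hv hw hok hb hO hg' hS, closedIn_bot hg fun z hz hc => ?_⟩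
    rw [hS.sp] at hz
    exact hC ht h1 h2 hv hw hok hb hO hg' z hz hc
  · rintro (h | h)
    · exact a4 (h3 _ (Or.inr (by linear_combination h / 3)))
    · exact a4 (h3 _ (Or.inl (by linear_combination h / 3)))
  · rintro (h | h | h | h | h | h)
    · exact a1 (h3 _ (Or.inl h))
    · exact a1 (h3 _ (Or.inr (by rw [h]; norm_num)))
    · exact a2 (h3 _ (Or.inr (by linear_combination h / 2)))
    · exact a2 (h3 _ (Or.inl (by linear_combination h / 2)))
    · exact a3 (h3 _ (Or.inr (by linear_combination h / 4)))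
    · exact a3 (h3 _ (Or.inl (by linear_combination h / 4)))

end Pool.Agent.FK4
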