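import Pool.Agent.Lib_helper87.FAM.T12
import Pool.Agent.Lib_helper76.UEN.H
import Pool.Agent.Lib_helper76.UEN.T

/-!
# Points of order twelve: the multiples of the point and the lines
-/

set_option autoImplicit false
set_option linter.unusedSectionVars false

namespace Pool.Agent.UE12

open WeierstrassCurve.Affine Polynomial GK UP
open UEG (Gen IsUn LineOK P0 negY_wt)
open UEN
open TN (Wt)

section coord

variable {k : Type*} [Field k]

/-- the abscissa of `4P` -/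
def x4 (t : k) : k := t * (2 * t - 1) * (2 * t ^ 2 - 2 * t + 1) / (1 - t) ^ 2

/-- the ordinate of `4P` -/
def y4 (t : k) : k := t ^ 2 * (2 * t - 1) ^ 2 * (2 * t ^ 2 - 2 * t + 1) ^ 2 / (1 - t) ^ 5

/-- the abscissa of `5P` -/
def x5 (t : k) : k := t * (2 * t - 1) * (2 * t ^ 2 - 2 * t + 1) * (3 * t ^ 2 - 3 * t + 1) /
  (1 - t) ^ 5

/-- the ordinate of `5P` -/
def y5 (t : k) : k := -(t ^ 2 * (2 * t - 1) * (2 * t ^ 2 - 2 * t + 1) *
  (3 * t ^ 2 - 3 * t + 1) ^ 2 / (1 - t) ^ 7)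

/-- the abscissa of `6P` -/
def x6 (t : k) : k := -(t * (3 * t ^ 2 - 3 * t + 1) / (1 - t))

/-- the ordinate of `6P` -/
def y6 (t : k) : k := t ^ 2 * (3 * t ^ 2 - 3 * t + 1) ^ 2 / (1 - t) ^ 3

/-- the ordinate of `7P` -/
def y7 (t : k) : k := t ^ 2 * (2 * t - 1) ^ 2 * (2 * t ^ 2 - 2 * t + 1) ^ 2 *
  (3 * t ^ 2 - 3 * t + 1) / (1 - t) ^ 8

/-- the ordinate of `8P` -/
def y8 (t : k) : k := t ^ 2 * (2 * t - 1) ^ 2 * (2 * t ^ 2 - 2 * t + 1) / (1 - t) ^ 3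

/-- the ordinate of `9P` -/
def y9 (t : k) : k := t ^ 2 * (2 * t - 1) ^ 2 * (3 * t ^ 2 - 3 * t + 1) ^ 2 / (1 - t) ^ 6

variable {t : k} (ht : t ≠ 0) (h1 : 1 - t ≠ 0) (h2 : 2 * t - 1 ≠ 0)
  (hv : 2 * t ^ 2 - 2 * t + 1 ≠ 0) (hw : 3 * t ^ 2 - 3 * t + 1 ≠ 0)

include ht h1 h2 hw in
lemma cc_ne : cc t ≠ 0 := by
  unfold cc
  exact div_ne_zero (mul_ne_zero hw (mul_ne_zero ht h2)) (pow_ne_zero 3 h1)

include ht h1 h2 hv hw in
lemma bb_ne : bb t ≠ 0 := by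
  unfold bb
  exact mul_ne_zero (div_ne_zero hv h1) (cc_ne ht h1 h2 hw)

end coord

section mult

variable {k : Type*} [Field k] [DecidableEq k] {t : k} (ht : t ≠ 0) (h1 : 1 - t ≠ 0)
  (h2 : 2 * t - 1 ≠ 0) (hv : 2 * t ^ 2 - 2 * t + 1 ≠ 0) (hw : 3 * t ^ 2 - 3 * t + 1 ≠ 0)
  {hb : bb t ≠ 0} (hO : addOrderOf (P0 (cc t) hb) = 12)

lemma p1 : ∃ h, (1 : ZMod 12).val • P0 (cc t) hb = .some 0 0 h := ⟨_, one_nsmul _⟩

lemma p2 : ∃ h, (2 : ZMod 12).val • P0 (cc t) hb = .some (bb t) (bb t * cc t) h := UEG.two_P0 hb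

lemma p3 : ∃ h, (3 : ZMod 12).val • P0 (cc t) hb = .some (cc t) (bb t - cc t) h :=
  UEG.three_P0 hb

include h1 in
omit [DecidableEq k] in
lemma e_f : cc t = (3 * t ^ 2 - 3 * t + 1) / (1 - t) / (1 - t) *
    ((2 * t ^ 2 - 2 * t + 1) / (1 - t) - 1) := by
  unfold cc
  field_simp
  ring

include ht h1 h2 hw in
lemma p4 : ∃ h, (4 : ZMod 12).val • P0 (cc t) hb = .some (x4 t) (y4 t) h := by
  obtain ⟨h, e⟩ := UEG.four_P0 hb (cc_ne ht h1 h2 hw) (d := (2 * t ^ 2 - 2 * t + 1) / (1 - t)) rfl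
  have e1 : (2 * t ^ 2 - 2 * t + 1) / (1 - t) * ((2 * t ^ 2 - 2 * t + 1) / (1 - t) - 1) = x4 t := by
    unfold x4
    field_simp
    ring
  have e2 : ((2 * t ^ 2 - 2 * t + 1) / (1 - t)) ^ 2 *
      (cc t + 1 - (2 * t ^ 2 - 2 * t + 1) / (1 - t)) = y4 t := by
    unfold y4 cc
    field_simp
    ring
  rw [e1, e2] at h
  refine ⟨h, ?_⟩
  have e3 : (4 : ZMod 12).val = 4 := rfl
  rw [e3, e]
  simp only [Point.some.injEq]
  exact ⟨e1, e2⟩

include ht h1 h2 hw in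
lemma p5 : ∃ h, (5 : ZMod 12).val • P0 (cc t) hb = .some (x5 t) (y5 t) h := by
  obtain ⟨h, e⟩ := UEG.five_P0 hb (cc_ne ht h1 h2 hw) (d := (2 * t ^ 2 - 2 * t + 1) / (1 - t))
    (f := (3 * t ^ 2 - 3 * t + 1) / (1 - t) / (1 - t)) rfl (e_f h1)
  have e1 : (2 * t ^ 2 - 2 * t + 1) / (1 - t) * ((3 * t ^ 2 - 3 * t + 1) / (1 - t) / (1 - t)) *
      ((3 * t ^ 2 - 3 * t + 1) / (1 - t) / (1 - t) - 1) = x5 t := by
    unfold x5
    field_simp
    ring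
  have e2 : (2 * t ^ 2 - 2 * t + 1) / (1 - t) *
      ((3 * t ^ 2 - 3 * t + 1) / (1 - t) / (1 - t)) ^ 2 *
      ((2 * t ^ 2 - 2 * t + 1) / (1 - t) - (3 * t ^ 2 - 3 * t + 1) / (1 - t) / (1 - t)) = y5 t := by
    unfold y5
    field_simp
    ring
  rw [e1, e2] at h
  refine ⟨h, ?_⟩
  have e3 : (5 : ZMod 12).val = 5 := rfl
  rw [e3, e]
  simp only [Point.some.injEq]
  exact ⟨e1, e2⟩

include ht h1 h2 hw in
lemma p6 : ∃ h, (6 : ZMod 12).val • P0 (cc t) hb = .some (x6 t) (y6 t) h := by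
  have hf1 : (3 * t ^ 2 - 3 * t + 1) / (1 - t) / (1 - t) - 1 ≠ 0 := by
    have e : (3 * t ^ 2 - 3 * t + 1) / (1 - t) / (1 - t) - 1 = t * (2 * t - 1) / (1 - t) ^ 2 := by
      field_simp
      ring
    rw [e]
    exact div_ne_zero (mul_ne_zero ht h2) (pow_ne_zero 2 h1)
  obtain ⟨h, e⟩ := UEG.six_P0 hb (cc_ne ht h1 h2 hw) (d := (2 * t ^ 2 - 2 * t + 1) / (1 - t))
    (f := (3 * t ^ 2 - 3 * t + 1) / (1 - t) / (1 - t)) (m := (3 * t ^ 2 - 3 * t + 1) / (1 - t))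
    (t := t) rfl (e_f h1) hf1 h1 rfl (by field_simp; ring)
  have e1 : -((3 * t ^ 2 - 3 * t + 1) / (1 - t) * t) = x6 t := by
    unfold x6
    field_simp
  have e2 : ((3 * t ^ 2 - 3 * t + 1) / (1 - t)) ^ 2 *
      ((3 * t ^ 2 - 3 * t + 1) / (1 - t) + 2 * t - 1) = y6 t := by
    unfold y6
    field_simp
    ring
  rw [e1, e2] at h
  refine ⟨h, ?_⟩
  have e3 : (6 : ZMod 12).val = 6 := rfl
  rw [e3, e]
  simp only [Point.some.injEq]
  exact ⟨e1, e2⟩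

include hO in
lemma neg_of {i j : ZMod 12} (hij : j = -i) {a a' d : k}
    (h : ∃ h, i.val • P0 (cc t) hb = .some a a' h) (e : -a' - (1 - cc t) * a + bb t = d) :
    ∃ h, j.val • P0 (cc t) hb = .some a d h := by
  obtain ⟨h, e1⟩ := h
  have e2 : j.val • P0 (cc t) hb = -(i.val • P0 (cc t) hb) := by
    rw [← en_val hO, ← en_val hO, hij, map_neg]
    rfl
  have e3 : j.val • P0 (cc t) hb = .some a ((Wt (bb t) (cc t)).negY a a')
      ((nonsingular_neg ..).mpr h) := by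
    rw [e2, e1, Point.neg_some]
  have e4 : (Wt (bb t) (cc t)).negY a a' = d := by
    rw [negY_wt, ← e]
  rw [← e4]
  exact ⟨_, e3⟩

include ht h1 h2 hw hO in
lemma p7 : ∃ h, (7 : ZMod 12).val • P0 (cc t) hb = .some (x5 t) (y7 t) h :=
  neg_of hO (i := 5) (by decide) (p5 ht h1 h2 hw) (by
    unfold y5 x5 y7 bb cc
    field_simp
    ring)

include ht h1 h2 hw hO in
lemma p8 : ∃ h, (8 : ZMod 12).val • P0 (cc t) hb = .some (x4 t) (y8 t) h :=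
  neg_of hO (i := 4) (by decide) (p4 ht h1 h2 hw) (by
    unfold y4 x4 y8 bb cc
    field_simp
    ring)

include h1 hO in
lemma p9 : ∃ h, (9 : ZMod 12).val • P0 (cc t) hb = .some (cc t) (y9 t) h :=
  neg_of hO (i := 3) (by decide) p3 (by
    unfold y9 bb cc
    field_simp
    ring)

end mult

section lines

variable {k : Type*} [Field k] [DecidableEq k] [CharZero k] {t : k} (ht : t ≠ 0) (h1 : 1 - t ≠ 0)
  (h2 : 2 * t - 1 ≠ 0) (hv : 2 * t ^ 2 - 2 * t + 1 ≠ 0) (hw : 3 * t ^ 2 - 3 * t + 1 ≠ 0)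
  {hb : bb t ≠ 0} (hO : addOrderOf (P0 (cc t) hb) = 12)
  {F : Type*} [Field F] [DecidableEq F] [Algebra k F] {x y : F}
  [Fintype (AddSubgroup.zmultiples (P0 (cc t) hb))]
  [DecidableEq (AddSubgroup.zmultiples (P0 (cc t) hb))] (hg : Gen (Wt (bb t) (cc t)) x y)

include hO hg in
lemma v1 : PQ hO hg x (dV 1) := by
  have := pq_vert hO hg p1
  rwa [map_zero, sub_zero] at this

lemma v2 : PQ hO hg (x - algebraMap k F (bb t)) (dV 2) := pq_vert hO hg p2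

lemma v3 : PQ hO hg (x - algebraMap k F (cc t)) (dV 3) := pq_vert hO hg p3

include ht h1 h2 hw in
lemma v4 : PQ hO hg (x - algebraMap k F (x4 t)) (dV 4) := pq_vert hO hg (p4 ht h1 h2 hw)

include ht h1 h2 hw in
lemma v5 : PQ hO hg (x - algebraMap k F (x5 t)) (dV 5) := pq_vert hO hg (p5 ht h1 h2 hw)

include ht h1 h2 hw in
lemma v6 : PQ hO hg (x - algebraMap k F (x6 t)) (dV 6) := pq_vert hO hg (p6 ht h1 h2 hw)

include hO hg in
lemma l11 : PQ hO hg y (dL 1 1) := by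
  have h' : LineOK (bb t) (cc t) 0 0 0 0 0 0 := by
    refine ⟨by ring, Or.inr ⟨rfl, rfl, fun h' => hb (by linear_combination -h'), by ring⟩⟩
  have := pq_line hO hg p1 p1 h'
  simpa using this

/-- the slopes of the lines through `P` and `jP` -/
def s3 (t : k) : k := t * (2 * t - 1) / (1 - t)

/-- the slopes of the lines through `P` and `jP` -/
def s4 (t : k) : k := t * (2 * t - 1) * (2 * t ^ 2 - 2 * t + 1) / (1 - t) ^ 3

/-- the slopes of the lines through `P` and `jP` -/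
def s5 (t : k) : k := -(t * (3 * t ^ 2 - 3 * t + 1) / (1 - t) ^ 2)

include hO hg in
lemma l12 : PQ hO hg (y - algebraMap k F (cc t) * x) (dL 1 2) := by
  have h' : LineOK (bb t) (cc t) 0 0 (bb t) (bb t * cc t) (cc t) 0 :=
    ⟨by ring, Or.inl ⟨Ne.symm hb, by ring⟩⟩
  have := pq_line hO hg p1 p2 h'
  rwa [map_zero, add_zero] at this

include ht h1 h2 hw hO hg in
lemma l13 : PQ hO hg (y - algebraMap k F (s3 t) * x) (dL 1 3) := by
  have h' : LineOK (bb t) (cc t) 0 0 (cc t) (bb t - cc t) (s3 t) 0 :=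
    ⟨by ring, Or.inl ⟨Ne.symm (cc_ne ht h1 h2 hw), by unfold s3 bb cc; field_simp; ring⟩⟩
  have := pq_line hO hg p1 p3 h'
  rwa [map_zero, add_zero] at this

include ht h1 h2 hv hw hO hg in
lemma l14 : PQ hO hg (y - algebraMap k F (s4 t) * x) (dL 1 4) := by
  have hx4 : x4 t ≠ 0 := div_ne_zero (mul_ne_zero (mul_ne_zero ht h2) hv) (pow_ne_zero 2 h1)
  have h' : LineOK (bb t) (cc t) 0 0 (x4 t) (y4 t) (s4 t) 0 :=
    ⟨by ring, Or.inl ⟨Ne.symm hx4, by unfold s4 x4 y4; field_simp; ring⟩⟩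
  have := pq_line hO hg p1 (p4 ht h1 h2 hw) h'
  rwa [map_zero, add_zero] at this

include ht h1 h2 hv hw hO hg in
lemma l15 : PQ hO hg (y - algebraMap k F (s5 t) * x) (dL 1 5) := by
  have hx5 : x5 t ≠ 0 := div_ne_zero (mul_ne_zero (mul_ne_zero (mul_ne_zero ht h2) hv) hw)
    (pow_ne_zero 5 h1)
  have h' : LineOK (bb t) (cc t) 0 0 (x5 t) (y5 t) (s5 t) 0 :=
    ⟨by ring, Or.inl ⟨Ne.symm hx5, by unfold s5 x5 y5; field_simp; ring⟩⟩
  have := pq_line hO hg p1 (p5 ht h1 h2 hw) h'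
  rwa [map_zero, add_zero] at this

include ht h1 h2 hv hw in
lemma l77 : PQ hO hg (y - (algebraMap k F ((2 * t - 1) * (2 * t ^ 2 - 2 * t + 1) / (1 - t) ^ 3) * x +
    algebraMap k F (-(t * (2 * t - 1) ^ 2 * (2 * t ^ 2 - 2 * t + 1) ^ 2 *
      (3 * t ^ 2 - 3 * t + 1) / (1 - t) ^ 7)))) (dL 7 7) := by
  refine pq_line hO hg (p7 ht h1 h2 hw hO) (p7 ht h1 h2 hw hO) ⟨?_, Or.inr ⟨rfl, rfl, ?_, ?_⟩⟩
  · unfold y7 x5
    field_simp
    ring
  · have e : 2 * y7 t + (1 - cc t) * x5 t - bb t = t ^ 5 * (2 * t - 1) * (2 * t ^ 2 - 2 * t + 1) *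
        (3 * t ^ 2 - 3 * t + 1) / (1 - t) ^ 8 := by
      unfold y7 x5 bb cc
      field_simp
      ring
    rw [e]
    exact div_ne_zero (mul_ne_zero (mul_ne_zero (mul_ne_zero (pow_ne_zero 5 ht) h2) hv) hw)
      (pow_ne_zero 8 h1)
  · unfold y7 x5 bb cc
    field_simp
    ring

include ht h1 h2 hw in
lemma l33 : PQ hO hg (y - (algebraMap k F (t * (3 * t - 2) / (1 - t)) * x +
    algebraMap k F (t ^ 2 * (2 * t - 1) * (3 * t ^ 2 - 3 * t + 1) / (1 - t) ^ 3))) (dL 3 3) := by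
  refine pq_line hO hg p3 p3 ⟨?_, Or.inr ⟨rfl, rfl, ?_, ?_⟩⟩
  · unfold bb cc
    field_simp
    ring
  · have e : 2 * (bb t - cc t) + (1 - cc t) * cc t - bb t = -(t ^ 3 * (2 * t - 1) ^ 3 *
        (3 * t ^ 2 - 3 * t + 1) / (1 - t) ^ 6) := by
      unfold bb cc
      field_simp
      ring
    rw [e]
    exact neg_ne_zero.mpr (div_ne_zero (mul_ne_zero (mul_ne_zero (pow_ne_zero 3 ht)
      (pow_ne_zero 3 h2)) hw) (pow_ne_zero 6 h1))
  · unfold bb cc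
    field_simp
    ring

include ht h1 h2 hw in
lemma l68 : PQ hO hg (y - (algebraMap k F (-(1 - t)) * x +
    algebraMap k F (t * (2 * t - 1) * (2 * t ^ 2 - 2 * t + 1) * (3 * t ^ 2 - 3 * t + 1) /
      (1 - t) ^ 3))) (dL 6 8) := by
  refine pq_line hO hg (p6 ht h1 h2 hw) (p8 ht h1 h2 hw hO) ⟨?_, Or.inl ⟨?_, ?_⟩⟩
  · unfold y6 x6
    field_simp
    ring
  · rw [← sub_ne_zero]
    have e : x6 t - x4 t = -(t ^ 4 / (1 - t) ^ 2) := by
      unfold x6 x4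
      field_simp
      ring
    rw [e]
    exact neg_ne_zero.mpr (div_ne_zero (pow_ne_zero 4 ht) (pow_ne_zero 2 h1))
  · unfold x6 x4 y6 y8
    field_simp
    ring

include ht h1 h2 hw in
lemma l23 : PQ hO hg (y - (algebraMap k F (t * (2 * t - 1) * (3 * t ^ 2 - 4 * t + 2) /
    (1 - t) ^ 3) * x + algebraMap k F (-(t ^ 2 * (2 * t - 1) ^ 2 * (2 * t ^ 2 - 2 * t + 1) *
      (3 * t ^ 2 - 3 * t + 1) / (1 - t) ^ 6)))) (dL 2 3) := by
  refine pq_line hO hg p2 p3 ⟨?_, Or.inl ⟨?_, ?_⟩⟩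
  · unfold bb cc
    field_simp
    ring
  · rw [← sub_ne_zero]
    have e : bb t - cc t = t ^ 2 * (2 * t - 1) ^ 2 * (3 * t ^ 2 - 3 * t + 1) / (1 - t) ^ 4 := by
      unfold bb cc
      field_simp
      ring
    rw [e]
    exact div_ne_zero (mul_ne_zero (mul_ne_zero (pow_ne_zero 2 ht) (pow_ne_zero 2 h2)) hw)
      (pow_ne_zero 4 h1)
  · unfold bb cc
    field_simp
    ring

include ht h1 h2 hv hw in
lemma l25 : PQ hO hg (y - (algebraMap k F (-(2 * t * (3 * t ^ 2 - 3 * t + 1) / (1 - t) ^ 2)) * x +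
    algebraMap k F (t ^ 2 * (2 * t - 1) * (2 * t ^ 2 - 2 * t + 1) *
      (3 * t ^ 2 - 3 * t + 1) ^ 2 / (1 - t) ^ 7))) (dL 2 5) := by
  refine pq_line hO hg p2 (p5 ht h1 h2 hw) ⟨?_, Or.inl ⟨?_, ?_⟩⟩
  · unfold bb cc
    field_simp
    ring
  · rw [← sub_ne_zero]
    have e : bb t - x5 t = -(t ^ 2 * (2 * t - 1) * (2 * t ^ 2 - 2 * t + 1) *
        (3 * t ^ 2 - 3 * t + 1) / (1 - t) ^ 5) := by
      unfold x5 bb cc
      field_simp
      ring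
    rw [e]
    exact neg_ne_zero.mpr (div_ne_zero (mul_ne_zero (mul_ne_zero (mul_ne_zero
      (pow_ne_zero 2 ht) h2) hv) hw) (pow_ne_zero 5 h1))
  · unfold x5 y5 bb cc
    field_simp
    ring

include ht h1 h2 hw in
lemma l69 : PQ hO hg (y - (algebraMap k F ((t ^ 2 + t - 1) * (3 * t ^ 2 - 3 * t + 1) /
    (1 - t) ^ 3) * x + algebraMap k F (t * (2 * t - 1) * (3 * t ^ 2 - 3 * t + 1) ^ 2 /
      (1 - t) ^ 4))) (dL 6 9) := by
  refine pq_line hO hg (p6 ht h1 h2 hw) (p9 h1 hO) ⟨?_, Or.inl ⟨?_, ?_⟩⟩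
  · unfold x6 y6
    field_simp
    ring
  · rw [← sub_ne_zero]
    have e : x6 t - cc t = -(t ^ 3 * (3 * t ^ 2 - 3 * t + 1) / (1 - t) ^ 3) := by
      unfold x6 cc
      field_simp
      ring
    rw [e]
    exact neg_ne_zero.mpr (div_ne_zero (mul_ne_zero (pow_ne_zero 3 ht) hw) (pow_ne_zero 3 h1))
  · unfold x6 y6 y9 cc
    field_simp
    ring

end lines

end Pool.Agent.UE12
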