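import Mathlib.Tactic

/-!
# Points of order twelve: identities for the quotient curves, part one
-/

set_option autoImplicit false

namespace Pool.Agent.UE12

variable {F : Type*} [Field F]

set_option maxRecDepth 20000 in
lemma eq6_aux {T s h v w x y a : F} (hs0 : s ≠ 0) (hw0 : w ≠ 0) (hs : s = 1 - T)
    (hh : h = 2 * T - 1) (hv : v = 2 * T ^ 2 - 2 * T + 1) (hw : w = 3 * T ^ 2 - 3 * T + 1)
    (ha : a = x * s + T * w) (ha0 : a ≠ 0) :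
    ((s ^ 9 / w ^ 3 * x ^ 2 + 2 * T * s ^ 8 / w ^ 2 * x - T ^ 2 * s ^ 3 * h * v / w) * y +
      (-(T ^ 4 * s ^ 6 / w ^ 3) * x ^ 3 + T ^ 5 * s ^ 2 * h * v / w ^ 2 * x ^ 2)) ^ 2 +
      (1 + T * s * h ^ 2 / w) * (s ^ 6 / w ^ 2 * x * (x - T * h * v * w / s ^ 5)) * (a / s) *
      ((s ^ 9 / w ^ 3 * x ^ 2 + 2 * T * s ^ 8 / w ^ 2 * x - T ^ 2 * s ^ 3 * h * v / w) * y +
      (-(T ^ 4 * s ^ 6 / w ^ 3) * x ^ 3 + T ^ 5 * s ^ 2 * h * v / w ^ 2 * x ^ 2)) -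
      (-(T * s * h ^ 2 / w) + (T * s * h ^ 2 / w) ^ 2) *
      ((s ^ 9 / w ^ 3 * x ^ 2 + 2 * T * s ^ 8 / w ^ 2 * x - T ^ 2 * s ^ 3 * h * v / w) * y +
      (-(T ^ 4 * s ^ 6 / w ^ 3) * x ^ 3 + T ^ 5 * s ^ 2 * h * v / w ^ 2 * x ^ 2)) * (a / s) ^ 2 -
      ((s ^ 6 / w ^ 2 * x * (x - T * h * v * w / s ^ 5)) ^ 3 * (a / s) -
      (-(T * s * h ^ 2 / w) + (T * s * h ^ 2 / w) ^ 2) *
      (s ^ 6 / w ^ 2 * x * (x - T * h * v * w / s ^ 5)) ^ 2 * (a / s) ^ 2) =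
    (s ^ 9 / w ^ 3 * x ^ 2 + 2 * T * s ^ 8 / w ^ 2 * x - T ^ 2 * s ^ 3 * h * v / w) ^ 2 *
      (y ^ 2 + (1 - T * h * w / s ^ 3) * x * y - T * h * v * w / s ^ 4 * y -
        (x ^ 3 - T * h * v * w / s ^ 4 * x ^ 2)) := by
  field_simp
  subst ha hs hh hv hw
  ring

end Pool.Agent.UE12
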