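import Mathlib.Tactic

/-!
# Points of order twelve: identities for the quotient curves, part three
-/

set_option autoImplicit false

namespace Pool.Agent.UE12

variable {F : Type*} [Field F]

set_option maxRecDepth 20000 in
lemma idy4_aux {T s h v w x y n₁ n₀ : F} (hs0 : s ≠ 0) (hh0 : h ≠ 0) (hs : s = 1 - T)
    (hh : h = 2 * T - 1) (hv : v = 2 * T ^ 2 - 2 * T + 1) (hw : w = 3 * T ^ 2 - 3 * T + 1)
    (hn1 : n₁ = -(s ^ 9 / h ^ 3) * x ^ 3 + 3 * T * s ^ 7 * v / h ^ 2 * x ^ 2 -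
      (-6 * T ^ 3 + 11 * T ^ 2 - 9 * T + 3) * T ^ 2 * s * v * w / h * x +
      T ^ 3 * v ^ 2 * w ^ 2 / s)
    (hn0 : n₀ = -((3 * T - 1) * T ^ 2 * s ^ 7 / h ^ 3) * x ^ 4 +
      (-6 * T ^ 4 + 19 * T ^ 3 - 21 * T ^ 2 + 11 * T - 2) * T ^ 3 * s ^ 2 * w / h ^ 2 * x ^ 3 +
      (-5 * T ^ 3 + 8 * T ^ 2 - 5 * T + 1) * T ^ 4 * v * w ^ 2 / (s ^ 2 * h) * x ^ 2) :
    n₁ * y + n₀ - -(s ^ 9 / h ^ 3) * (y * (y - (-(2 * T * w / s ^ 2) * x +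
      T ^ 2 * h * v * w ^ 2 / s ^ 7)) * (y - ((T ^ 2 + T - 1) * w / s ^ 3 * x +
      T * h * w ^ 2 / s ^ 4))) =
    s ^ 9 / h ^ 3 * (y - (1 - T * h * w / s ^ 3) * x + T * h * v * w / s ^ 4 -
        (-(2 * T * w / s ^ 2) * x + T ^ 2 * h * v * w ^ 2 / s ^ 7) -
        ((T ^ 2 + T - 1) * w / s ^ 3 * x + T * h * w ^ 2 / s ^ 4)) *
      (y ^ 2 + (1 - T * h * w / s ^ 3) * x * y - T * h * v * w / s ^ 4 * y -
        (x ^ 3 - T * h * v * w / s ^ 4 * x ^ 2)) := by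
  rw [hn1, hn0]
  field_simp
  subst hs hh hv hw
  ring

end Pool.Agent.UE12
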