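import Mathlib.Tactic
import Pool.Agent.Lib_helper76.UE12.I1
import Pool.Agent.Lib_helper76.UE12.I2
import Pool.Agent.Lib_helper76.UE12.I3
import Pool.Agent.Lib_helper76.UE12.I4

/-!
# Points of order twelve: identities for the quotient curves, part five
-/

set_option autoImplicit false

namespace Pool.Agent.UE12

variable {F : Type*} [Field F]

/-- the abscissae -/
lemma ab_aux {T s h v w x : F} (hs0 : s ≠ 0) (hw0 : w ≠ 0) (hs : s = 1 - T)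
    (hh : h = 2 * T - 1) (hv : v = 2 * T ^ 2 - 2 * T + 1) (hw : w = 3 * T ^ 2 - 3 * T + 1) :
    s ^ 6 / w ^ 2 * x * (x - T * h * v * w / s ^ 5) -
      (-(T * s * h ^ 2 / w) + (T * s * h ^ 2 / w) ^ 2) * (x + T * w / s) =
      s ^ 6 / w ^ 2 * ((x - T * h * v * w / s ^ 4) * (x - T * h * v / s ^ 2)) ∧
    s ^ 6 / w ^ 2 * x * (x - T * h * v * w / s ^ 5) +
      T * s * h ^ 2 / w * (x + T * w / s) =
      s ^ 6 / w ^ 2 * (x - T * h * w / s ^ 3) ^ 2 := by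
  constructor
  · field_simp
    subst hs hh hv hw
    ring
  · field_simp
    subst hs hh hv hw
    ring

/-- the abscissae -/
lemma ab4_aux {T s h v w x : F} (hs0 : s ≠ 0) (hh0 : h ≠ 0) (hs : s = 1 - T)
    (hh : h = 2 * T - 1) (hv : v = 2 * T ^ 2 - 2 * T + 1) (hw : w = 3 * T ^ 2 - 3 * T + 1) :
    s ^ 6 / h ^ 2 * (x * (x - T * h * w / s ^ 3) * (x - T * h * v * w / s ^ 5)) +
      T * s * w ^ 3 / h ^ 2 * (x - T * h * v / s ^ 2) ^ 2 =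
      s ^ 6 / h ^ 2 * ((x - T * h * v * w / s ^ 4) ^ 2 * (x + T * w / s)) := by
  field_simp
  subst hs hh hv hw
  ring

/-- the curve with the point `2P` -/
lemma eq2_aux {T s h v w x y : F} (hs0 : s ≠ 0) (hw0 : w ≠ 0) (hs : s = 1 - T)
    (hh : h = 2 * T - 1) (hv : v = 2 * T ^ 2 - 2 * T + 1) (hw : w = 3 * T ^ 2 - 3 * T + 1)
    {X Y : F} (hX : X = s ^ 6 / w ^ 4 * (x - T * h * v * w / s ^ 4))
    (hY : Y = s ^ 9 / w ^ 6 * (y - ((4 * T ^ 2 - 5 * T + 2) * T * h / s ^ 3 * x +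
      -(T ^ 2 * h ^ 2 * v * w / s ^ 5)))) :
    Y ^ 2 + (1 + T ^ 2 * s ^ 2 / w ^ 2) * X * Y - (-(T ^ 2 * s ^ 2 / w ^ 2) +
      (T ^ 2 * s ^ 2 / w ^ 2) ^ 2) * Y - (X ^ 3 - (-(T ^ 2 * s ^ 2 / w ^ 2) +
      (T ^ 2 * s ^ 2 / w ^ 2) ^ 2) * X ^ 2) =
    (s ^ 9 / w ^ 6) ^ 2 * (y ^ 2 + (1 - T * h * w / s ^ 3) * x * y - T * h * v * w / s ^ 4 * y -
        (x ^ 3 - T * h * v * w / s ^ 4 * x ^ 2)) := by
  rw [hX, hY]
  field_simp
  subst hs hh hv hw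
  ring

/-- the functions of the curve with the point `2P` -/
lemma ab2_aux {T s h v w x y : F} (hs0 : s ≠ 0) (hw0 : w ≠ 0) (hs : s = 1 - T)
    (hh : h = 2 * T - 1) (hv : v = 2 * T ^ 2 - 2 * T + 1) (hw : w = 3 * T ^ 2 - 3 * T + 1) :
    s ^ 6 / w ^ 4 * (x - T * h * v * w / s ^ 4) - (-(T ^ 2 * s ^ 2 / w ^ 2) +
      (T ^ 2 * s ^ 2 / w ^ 2) ^ 2) = s ^ 6 / w ^ 4 * (x - T * h * v / s ^ 2) ∧
    s ^ 6 / w ^ 4 * (x - T * h * v * w / s ^ 4) + T ^ 2 * s ^ 2 / w ^ 2 =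
      s ^ 6 / w ^ 4 * (x + T * w / s) ∧
    s ^ 9 / w ^ 6 * (y - ((4 * T ^ 2 - 5 * T + 2) * T * h / s ^ 3 * x +
      -(T ^ 2 * h ^ 2 * v * w / s ^ 5))) + T ^ 2 * s ^ 2 / w ^ 2 *
      (s ^ 6 / w ^ 4 * (x - T * h * v * w / s ^ 4)) =
      s ^ 9 / w ^ 6 * (y - (T * (7 * T ^ 3 - 12 * T ^ 2 + 8 * T - 2) / s ^ 3 * x +
        T ^ 2 * h * v * w / s ^ 4)) := by
  refine ⟨?_, ?_, ?_⟩
  · field_simp
    subst hs hh hv hw
    ring
  · field_simp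
    subst hs hh hv hw
    ring
  · field_simp
    subst hs hh hv hw
    ring

end Pool.Agent.UE12
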