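import Pool.Agent.Lib_helper76.UE12.A
import Pool.Agent.Lib_helper76.UE12.I
import Pool.Agent.Lib_helper76.UE6.F6
import Pool.Agent.Lib_helper76.FAM.L45

/-!
# Points of order twelve: the quotient by `6P`
-/

set_option autoImplicit false
set_option linter.unusedSectionVars false

namespace Pool.Agent.UE12

open WeierstrassCurve.Affine Polynomial GK UP
open UEG (Gen IsUn LineOK P0 negY_wt)
open UEN
open TN (Wt)

/-- a rational function of a transcendental element -/
lemma tr_of {k F : Type*} [Field k] [Field F] [Algebra k F] {x z : F} (hx : Transcendental k x)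
    (p q : k[X]) (h : z * aeval x q = aeval x p) {a : k} (h0 : q.eval a = 0) (h1 : p.eval a ≠ 0) :
    Transcendental k z := by
  intro hz
  let E := algebraicClosure k F
  have hzE : z ∈ E := (mem_algebraicClosure_iff).mpr hz
  set P : E[X] := C (⟨z, hzE⟩ : E) * q.map (algebraMap k E) - p.map (algebraMap k E) with hP
  have e1 : aeval x P = 0 := by
    rw [hP, map_sub, map_mul, aeval_C, aeval_map_algebraMap, aeval_map_algebraMap]
    show z * _ - _ = 0
    rw [h, sub_self]
  by_cases h2 : P = 0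
  · have e2 : P.eval (algebraMap k E a) = -(algebraMap k E (p.eval a)) := by
      rw [hP, eval_sub, eval_mul, eval_C, eval_map, eval_map, eval₂_at_apply, eval₂_at_apply, h0,
        map_zero, mul_zero, zero_sub]
    rw [h2, eval_zero] at e2
    apply h1
    have e3 : algebraMap k E (p.eval a) = 0 := by linear_combination e2
    exact (map_eq_zero _).mp e3
  · have h3 : IsAlgebraic E x := ⟨P, h2, e1⟩
    exact hx (h3.restrictScalars k)

section ord

variable {k : Type*} [Field k] [DecidableEq k]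

/-- the point of order six -/
lemma ord6 {c : k} (hb : UE6.bb c ≠ 0) :
    addOrderOf (P0 (UE6.cc c) hb) = 6 := by
  obtain ⟨h2, e2⟩ := UEG.two_P0 (c := UE6.cc c) hb
  obtain ⟨h3, e3⟩ := UEG.three_P0 (c := UE6.cc c) hb
  have e6 : (6 : ℕ) • P0 (UE6.cc c) hb = 0 := by
    have e : (3 : ℕ) • P0 (UE6.cc c) hb = -((3 : ℕ) • P0 (UE6.cc c) hb) := by
      rw [e3, Point.neg_some]
      simp only [Point.some.injEq, true_and]
      rw [negY_wt]
      unfold UE6.bb UE6.cc
      ring
    rw [show (6 : ℕ) = 3 + 3 by norm_num, add_nsmul]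
    nth_rewrite 2 [e]
    exact add_neg_cancel _
  have hd := addOrderOf_dvd_of_nsmul_eq_zero e6
  have h0 : addOrderOf (P0 (UE6.cc c) hb) ≠ 0 := fun h => by rw [h] at hd; omega
  have n1 : addOrderOf (P0 (UE6.cc c) hb) ∣ 2 → False := by
    intro h
    have := addOrderOf_dvd_iff_nsmul_eq_zero.mp h
    rw [e2] at this
    exact Point.some_ne_zero _ this
  have n2 : addOrderOf (P0 (UE6.cc c) hb) ∣ 3 → False := by
    intro h
    have := addOrderOf_dvd_iff_nsmul_eq_zero.mp h
    rw [e3] at this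
    exact Point.some_ne_zero _ this
  have h6 : addOrderOf (P0 (UE6.cc c) hb) ≤ 6 := Nat.le_of_dvd (by norm_num) hd
  interval_cases h : addOrderOf (P0 (UE6.cc c) hb)
  · exact absurd rfl h0
  · exact (n1 (by norm_num)).elim
  · exact (n1 (by norm_num)).elim
  · exact (n2 (by norm_num)).elim
  · omega
  · omega
  · rfl

/-- the point of order four -/
lemma ord4 {b : k} (hb : b ≠ 0) : addOrderOf (P0 (0 : k) hb) = 4 := by
  obtain ⟨h2, e2⟩ := UEG.two_P0 (c := (0 : k)) hb
  have e4 : (4 : ℕ) • P0 (0 : k) hb = 0 := UEG.four_of_c hb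
  have hd := addOrderOf_dvd_of_nsmul_eq_zero e4
  have h0 : addOrderOf (P0 (0 : k) hb) ≠ 0 := fun h => by rw [h] at hd; omega
  have n1 : addOrderOf (P0 (0 : k) hb) ∣ 2 → False := by
    intro h
    have := addOrderOf_dvd_iff_nsmul_eq_zero.mp h
    rw [e2] at this
    exact Point.some_ne_zero _ this
  have h6 : addOrderOf (P0 (0 : k) hb) ≤ 4 := Nat.le_of_dvd (by norm_num) hd
  interval_cases h : addOrderOf (P0 (0 : k) hb)
  · exact absurd rfl h0
  · exact (n1 (by norm_num)).elim
  · exact (n1 (by norm_num)).elim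
  · omega
  · rfl

end ord

section six

variable {k : Type*} [Field k] [DecidableEq k] [CharZero k] {t : k}
  {F : Type*} [Field F] [DecidableEq F] [Algebra k F] {x y : F}

/-- the units of a curve with a point of order six -/
def u6 (c : k) (x y : F) : Fin 5 → F := ![x, x - algebraMap k F (UE6.bb c),
  x - algebraMap k F (UE6.cc c), y, y - algebraMap k F (UE6.cc c) * x]

lemma pq_u6 {c : k} {hb : UE6.bb c ≠ 0} (hO : addOrderOf (P0 (UE6.cc c) hb) = 6)
    [Fintype (AddSubgroup.zmultiples (P0 (UE6.cc c) hb))]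
    [DecidableEq (AddSubgroup.zmultiples (P0 (UE6.cc c) hb))]
    (hg : Gen (Wt (UE6.bb c) (UE6.cc c)) x y) (j : Fin 5) : PQ hO hg (u6 c x y j) (b6 j) := by
  have q1 : ∃ h, (1 : ZMod 6).val • P0 (UE6.cc c) hb = .some 0 0 h := ⟨_, one_nsmul _⟩
  have q2 : ∃ h, (2 : ZMod 6).val • P0 (UE6.cc c) hb = .some (UE6.bb c) (UE6.bb c * UE6.cc c) h :=
    UEG.two_P0 hb
  have q3 : ∃ h, (3 : ZMod 6).val • P0 (UE6.cc c) hb = .some (UE6.cc c) (UE6.bb c - UE6.cc c) h :=
    UEG.three_P0 hb
  fin_cases j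
  · have := pq_vert hO hg q1
    rwa [map_zero, sub_zero] at this
  · exact pq_vert hO hg q2
  · exact pq_vert hO hg q3
  · have h' : LineOK (UE6.bb c) (UE6.cc c) 0 0 0 0 0 0 := by
      refine ⟨by ring, Or.inr ⟨rfl, rfl, fun h' => hb (by linear_combination -h'), by ring⟩⟩
    have := pq_line hO hg q1 q1 h'
    show PQ hO hg y (dL 1 1)
    simpa using this
  · have h' : LineOK (UE6.bb c) (UE6.cc c) 0 0 (UE6.bb c) (UE6.bb c * UE6.cc c) (UE6.cc c) 0 :=
      ⟨by ring, Or.inl ⟨Ne.symm hb, by ring⟩⟩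
    have := pq_line hO hg q1 q2 h'
    rwa [map_zero, add_zero] at this

/-- the units of a curve with a point of order four -/
def u4 (b : k) (x y : F) : Fin 3 → F := ![x, x - algebraMap k F b, y]

lemma pq_u4 {b : k} {hb : b ≠ 0} (hO : addOrderOf (P0 (0 : k) hb) = 4)
    [Fintype (AddSubgroup.zmultiples (P0 (0 : k) hb))]
    [DecidableEq (AddSubgroup.zmultiples (P0 (0 : k) hb))]
    (hg : Gen (Wt b 0) x y) (j : Fin 3) : PQ hO hg (u4 b x y j) (b4 j) := by
  have q1 : ∃ h, (1 : ZMod 4).val • P0 (0 : k) hb = .some 0 0 h := ⟨_, one_nsmul _⟩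
  have q2 : ∃ h, (2 : ZMod 4).val • P0 (0 : k) hb = .some b (b * 0) h := UEG.two_P0 hb
  fin_cases j
  · have := pq_vert hO hg q1
    rwa [map_zero, sub_zero] at this
  · exact pq_vert hO hg q2
  · have h' : LineOK b (0 : k) 0 0 0 0 0 0 := by
      refine ⟨by ring, Or.inr ⟨rfl, rfl, fun h' => hb (by linear_combination -h'), by ring⟩⟩
    have := pq_line hO hg q1 q1 h'
    show PQ hO hg y (dL 1 1)
    simpa using this

end six

end Pool.Agent.UE12
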