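import Pool.Agent.Lib_helper76.UE12.B

/-!
# Points of order twelve: the quotients and the point `2P`
-/

set_option autoImplicit false
set_option linter.unusedSectionVars false

namespace Pool.Agent.UE12

open WeierstrassCurve.Affine Polynomial GK UP
open UEG (Gen IsUn LineOK P0 negY_wt)
open UEN
open TN (Wt)

section defs

variable {k : Type*} [Field k] {F : Type*} [Field F] [Algebra k F]

/-- the parameter of the quotient by `6P` -/
def c6 (t : k) : k := -(t * (1 - t) * (2 * t - 1) ^ 2 / (3 * t ^ 2 - 3 * t + 1))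

/-- the abscissa of the quotient by `6P` -/
def X6 (t : k) (x : F) : F := algebraMap k F ((1 - t) ^ 6 / (3 * t ^ 2 - 3 * t + 1) ^ 2) *
  (x * (x - algebraMap k F (x5 t)) / (x - algebraMap k F (x6 t)))

/-- the ordinate of the quotient by `6P` -/
def Y6 (t : k) (x y : F) : F :=
  (((1 - algebraMap k F t) ^ 9 / (3 * algebraMap k F t ^ 2 - 3 * algebraMap k F t + 1) ^ 3 *
      x ^ 2 + 2 * algebraMap k F t * (1 - algebraMap k F t) ^ 8 /
      (3 * algebraMap k F t ^ 2 - 3 * algebraMap k F t + 1) ^ 2 * x -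
      algebraMap k F t ^ 2 * (1 - algebraMap k F t) ^ 3 * (2 * algebraMap k F t - 1) *
      (2 * algebraMap k F t ^ 2 - 2 * algebraMap k F t + 1) /
      (3 * algebraMap k F t ^ 2 - 3 * algebraMap k F t + 1)) * y +
    (-(algebraMap k F t ^ 4 * (1 - algebraMap k F t) ^ 6 /
      (3 * algebraMap k F t ^ 2 - 3 * algebraMap k F t + 1) ^ 3) * x ^ 3 +
      algebraMap k F t ^ 5 * (1 - algebraMap k F t) ^ 2 * (2 * algebraMap k F t - 1) *
      (2 * algebraMap k F t ^ 2 - 2 * algebraMap k F t + 1) /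
      (3 * algebraMap k F t ^ 2 - 3 * algebraMap k F t + 1) ^ 2 * x ^ 2)) /
    (x - algebraMap k F (x6 t)) ^ 2

end defs

section six

variable {k : Type*} [Field k] [DecidableEq k] [CharZero k] {t : k} (ht : t ≠ 0) (h1 : 1 - t ≠ 0)
  (h2 : 2 * t - 1 ≠ 0) (hv : 2 * t ^ 2 - 2 * t + 1 ≠ 0) (hw : 3 * t ^ 2 - 3 * t + 1 ≠ 0)
  {hb : bb t ≠ 0} {hO : addOrderOf (P0 (cc t) hb) = 12}
  {F : Type*} [Field F] [DecidableEq F] [Algebra k F] {x y : F}
  [Fintype (AddSubgroup.zmultiples (P0 (cc t) hb))]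
  [DecidableEq (AddSubgroup.zmultiples (P0 (cc t) hb))] (hg : Gen (Wt (bb t) (cc t)) x y)

omit [DecidableEq k] [CharZero k] [DecidableEq F] in
/-- the values of the constants -/
lemma am (t : k) : algebraMap k F (cc t) = algebraMap k F t * (2 * algebraMap k F t - 1) *
      (3 * algebraMap k F t ^ 2 - 3 * algebraMap k F t + 1) / (1 - algebraMap k F t) ^ 3 ∧
    algebraMap k F (bb t) = algebraMap k F t * (2 * algebraMap k F t - 1) *
      (2 * algebraMap k F t ^ 2 - 2 * algebraMap k F t + 1) *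
      (3 * algebraMap k F t ^ 2 - 3 * algebraMap k F t + 1) / (1 - algebraMap k F t) ^ 4 ∧
    algebraMap k F (x4 t) = algebraMap k F t * (2 * algebraMap k F t - 1) *
      (2 * algebraMap k F t ^ 2 - 2 * algebraMap k F t + 1) / (1 - algebraMap k F t) ^ 2 ∧
    algebraMap k F (x5 t) = algebraMap k F t * (2 * algebraMap k F t - 1) *
      (2 * algebraMap k F t ^ 2 - 2 * algebraMap k F t + 1) *
      (3 * algebraMap k F t ^ 2 - 3 * algebraMap k F t + 1) / (1 - algebraMap k F t) ^ 5 ∧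
    algebraMap k F (x6 t) = -(algebraMap k F t *
      (3 * algebraMap k F t ^ 2 - 3 * algebraMap k F t + 1) / (1 - algebraMap k F t)) := by
  refine ⟨?_, ?_, ?_, ?_, ?_⟩
  · unfold cc
    simp only [map_div₀, map_mul, map_sub, map_add, map_pow, map_one, map_ofNat]
    ring
  · unfold bb cc
    simp only [map_div₀, map_mul, map_sub, map_add, map_pow, map_one, map_ofNat]
    generalize 1 - algebraMap k F t = S
    ring
  · unfold x4
    simp only [map_div₀, map_mul, map_sub, map_add, map_pow, map_one, map_ofNat]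
  · unfold x5
    simp only [map_div₀, map_mul, map_sub, map_add, map_pow, map_one, map_ofNat]
  · unfold x6
    simp only [map_div₀, map_mul, map_sub, map_add, map_pow, map_one, map_ofNat, map_neg]

omit [DecidableEq k] [CharZero k] [DecidableEq F] in
lemma am6 (t : k) : algebraMap k F (UE6.cc (c6 t)) = -(algebraMap k F t *
      (1 - algebraMap k F t) * (2 * algebraMap k F t - 1) ^ 2 /
      (3 * algebraMap k F t ^ 2 - 3 * algebraMap k F t + 1)) ∧
    algebraMap k F (UE6.bb (c6 t)) = -(algebraMap k F t *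
      (1 - algebraMap k F t) * (2 * algebraMap k F t - 1) ^ 2 /
      (3 * algebraMap k F t ^ 2 - 3 * algebraMap k F t + 1)) + (algebraMap k F t *
      (1 - algebraMap k F t) * (2 * algebraMap k F t - 1) ^ 2 /
      (3 * algebraMap k F t ^ 2 - 3 * algebraMap k F t + 1)) ^ 2 := by
  constructor
  · unfold UE6.cc c6
    simp only [map_div₀, map_mul, map_sub, map_add, map_pow, map_one, map_ofNat, map_neg]
  · unfold UE6.bb c6
    simp only [map_div₀, map_mul, map_sub, map_add, map_pow, map_one, map_ofNat, map_neg]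
    ring

include ht h1 h2 hw in
omit [DecidableEq k] [CharZero k] in
lemma c6_ne : c6 t ≠ 0 := neg_ne_zero.mpr (div_ne_zero (mul_ne_zero (mul_ne_zero ht h1)
  (pow_ne_zero 2 h2)) hw)

include hv hw in
omit [DecidableEq k] [CharZero k] in
lemma c6_ne1 : c6 t + 1 ≠ 0 := by
  have e : c6 t + 1 = (2 * t ^ 2 - 2 * t + 1) ^ 2 / (3 * t ^ 2 - 3 * t + 1) := by
    unfold c6
    obtain ⟨w, hw'⟩ : ∃ w, w = 3 * t ^ 2 - 3 * t + 1 := ⟨_, rfl⟩
    rw [← hw'] at hw ⊢
    field_simp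
    rw [hw']
    ring
  rw [e]
  exact div_ne_zero (pow_ne_zero 2 hv) hw

include ht h1 h2 hv hw in
omit [DecidableEq k] [CharZero k] in
lemma b6_ne : UE6.bb (c6 t) ≠ 0 := by
  have e : UE6.bb (c6 t) = c6 t * (c6 t + 1) := by unfold UE6.bb; ring
  rw [e]
  exact mul_ne_zero (c6_ne ht h1 h2 hw) (c6_ne1 hv hw)

omit [DecidableEq k] [CharZero k] [DecidableEq F] in
/-- the constants in the field of functions -/
lemma nzF (h1 : 1 - t ≠ 0) (h2 : 2 * t - 1 ≠ 0) (hw : 3 * t ^ 2 - 3 * t + 1 ≠ 0) :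
    1 - algebraMap k F t ≠ 0 ∧ 2 * algebraMap k F t - 1 ≠ 0 ∧
    3 * algebraMap k F t ^ 2 - 3 * algebraMap k F t + 1 ≠ 0 := by
  refine ⟨?_, ?_, ?_⟩
  · have := (_root_.map_ne_zero (algebraMap k F)).mpr h1
    simpa only [map_sub, map_one] using this
  · have := (_root_.map_ne_zero (algebraMap k F)).mpr h2
    simpa only [map_sub, map_one, map_mul, map_ofNat] using this
  · have := (_root_.map_ne_zero (algebraMap k F)).mpr hw
    simpa only [map_sub, map_add, map_pow, map_one, map_mul, map_ofNat] using this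

include hg in
omit [DecidableEq k] [CharZero k] [DecidableEq F] in
lemma eqn : y ^ 2 + (1 - algebraMap k F (cc t)) * x * y - algebraMap k F (bb t) * y =
    x ^ 3 - algebraMap k F (bb t) * x ^ 2 := (UE4.of_UEG hg).eq

include h1 hg in
omit [DecidableEq k] [CharZero k] [DecidableEq F] in
lemma curve : y ^ 2 + (1 - algebraMap k F t * (2 * algebraMap k F t - 1) *
      (3 * algebraMap k F t ^ 2 - 3 * algebraMap k F t + 1) / (1 - algebraMap k F t) ^ 3) * x * y -
      algebraMap k F t * (2 * algebraMap k F t - 1) *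
      (2 * algebraMap k F t ^ 2 - 2 * algebraMap k F t + 1) *
      (3 * algebraMap k F t ^ 2 - 3 * algebraMap k F t + 1) / (1 - algebraMap k F t) ^ 4 * y -
    (x ^ 3 - algebraMap k F t * (2 * algebraMap k F t - 1) *
      (2 * algebraMap k F t ^ 2 - 2 * algebraMap k F t + 1) *
      (3 * algebraMap k F t ^ 2 - 3 * algebraMap k F t + 1) / (1 - algebraMap k F t) ^ 4 *
      x ^ 2) = 0 := by
  have h := eqn hg
  obtain ⟨e1, e2, -⟩ := am (F := F) t
  rw [e1, e2] at h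
  linear_combination h

include h1 h2 hw hg in
omit [DecidableEq k] [CharZero k] [DecidableEq F] in
/-- the Weierstrass equation of the quotient -/
lemma eq6 : Y6 t x y ^ 2 + (1 - algebraMap k F (UE6.cc (c6 t))) * X6 t x * Y6 t x y -
      algebraMap k F (UE6.bb (c6 t)) * Y6 t x y =
    X6 t x ^ 3 - algebraMap k F (UE6.bb (c6 t)) * X6 t x ^ 2 := by
  obtain ⟨n1, n2, n3⟩ := nzF (F := F) h1 h2 hw
  obtain ⟨e1, e2⟩ := am6 (F := F) t
  obtain ⟨-, -, -, a5, a6⟩ := am (F := F) t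
  have hx := hg.x_sub_ne (x6 t)
  have hc := curve h1 hg
  set T := algebraMap k F t with hT
  have ha0 : x * (1 - T) + T * (3 * T ^ 2 - 3 * T + 1) ≠ 0 := by
    intro h'
    apply hx
    rw [a6]
    field_simp
    linear_combination h'
  have key := eq6_aux (y := y) n1 n3 rfl rfl rfl rfl rfl ha0
  rw [hc, mul_zero] at key
  have ex : x - algebraMap k F (x6 t) = (x * (1 - T) + T * (3 * T ^ 2 - 3 * T + 1)) / (1 - T) := by
    rw [a6]
    field_simp
    ring
  have hX : X6 t x = (1 - T) ^ 6 / (3 * T ^ 2 - 3 * T + 1) ^ 2 * x *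
      (x - T * (2 * T - 1) * (2 * T ^ 2 - 2 * T + 1) * (3 * T ^ 2 - 3 * T + 1) / (1 - T) ^ 5) /
      (x - algebraMap k F (x6 t)) := by
    unfold X6
    rw [a5]
    simp only [map_div₀, map_mul, map_sub, map_add, map_pow, map_one, map_ofNat]
    ring
  have hY : Y6 t x y = (((1 - T) ^ 9 / (3 * T ^ 2 - 3 * T + 1) ^ 3 * x ^ 2 +
      2 * T * (1 - T) ^ 8 / (3 * T ^ 2 - 3 * T + 1) ^ 2 * x -
      T ^ 2 * (1 - T) ^ 3 * (2 * T - 1) * (2 * T ^ 2 - 2 * T + 1) / (3 * T ^ 2 - 3 * T + 1)) * y +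
      (-(T ^ 4 * (1 - T) ^ 6 / (3 * T ^ 2 - 3 * T + 1) ^ 3) * x ^ 3 +
      T ^ 5 * (1 - T) ^ 2 * (2 * T - 1) * (2 * T ^ 2 - 2 * T + 1) /
      (3 * T ^ 2 - 3 * T + 1) ^ 2 * x ^ 2)) / (x - algebraMap k F (x6 t)) ^ 2 := rfl
  rw [hX, hY, e1, e2, ← sub_eq_zero]
  rw [← ex] at key
  generalize ((1 - T) ^ 9 / (3 * T ^ 2 - 3 * T + 1) ^ 3 * x ^ 2 +
      2 * T * (1 - T) ^ 8 / (3 * T ^ 2 - 3 * T + 1) ^ 2 * x -
      T ^ 2 * (1 - T) ^ 3 * (2 * T - 1) * (2 * T ^ 2 - 2 * T + 1) / (3 * T ^ 2 - 3 * T + 1)) * y +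
      (-(T ^ 4 * (1 - T) ^ 6 / (3 * T ^ 2 - 3 * T + 1) ^ 3) * x ^ 3 +
      T ^ 5 * (1 - T) ^ 2 * (2 * T - 1) * (2 * T ^ 2 - 2 * T + 1) /
      (3 * T ^ 2 - 3 * T + 1) ^ 2 * x ^ 2) = N at key ⊢
  generalize (1 - T) ^ 6 / (3 * T ^ 2 - 3 * T + 1) ^ 2 * x *
      (x - T * (2 * T - 1) * (2 * T ^ 2 - 2 * T + 1) * (3 * T ^ 2 - 3 * T + 1) / (1 - T) ^ 5) = M
      at key ⊢
  generalize T * (1 - T) * (2 * T - 1) ^ 2 / (3 * T ^ 2 - 3 * T + 1) = C at key ⊢
  generalize x - algebraMap k F (x6 t) = A at key hx ⊢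
  have e3 : (N / A ^ 2) ^ 2 + (1 - -C) * (M / A) * (N / A ^ 2) - (-C + C ^ 2) * (N / A ^ 2) -
      ((M / A) ^ 3 - (-C + C ^ 2) * (M / A) ^ 2) = (N ^ 2 + (1 + C) * M * A * N -
      (-C + C ^ 2) * N * A ^ 2 - (M ^ 3 * A - (-C + C ^ 2) * M ^ 2 * A ^ 2)) / A ^ 4 := by
    field_simp
    ring
  rw [e3, div_eq_zero_iff]
  left
  linear_combination key

end six

end Pool.Agent.UE12
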