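import Pool.Agent.Lib_helper76.UE12.C

/-!
# Points of order twelve: the functions of the quotient by `6P`
-/

set_option autoImplicit false
set_option linter.unusedSectionVars false

namespace Pool.Agent.UE12

open WeierstrassCurve.Affine Polynomial GK UP
open UEG (Gen IsUn LineOK P0 negY_wt)
open UEN
open TN (Wt)

section six

variable {k : Type*} [Field k] [DecidableEq k] [CharZero k] {t : k} (ht : t ≠ 0) (h1 : 1 - t ≠ 0)
  (h2 : 2 * t - 1 ≠ 0) (hv : 2 * t ^ 2 - 2 * t + 1 ≠ 0) (hw : 3 * t ^ 2 - 3 * t + 1 ≠ 0)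
  {hb : bb t ≠ 0} {hO : addOrderOf (P0 (cc t) hb) = 12}
  {F : Type*} [Field F] [DecidableEq F] [Algebra k F] {x y : F}
  [Fintype (AddSubgroup.zmultiples (P0 (cc t) hb))]
  [DecidableEq (AddSubgroup.zmultiples (P0 (cc t) hb))] (hg : Gen (Wt (bb t) (cc t)) x y)

/-- the constant of the abscissa -/
def A6 (t : k) : k := (1 - t) ^ 6 / (3 * t ^ 2 - 3 * t + 1) ^ 2

/-- the constant of the ordinate -/
def C6 (t : k) : k := (1 - t) ^ 9 / (3 * t ^ 2 - 3 * t + 1) ^ 3

include h1 hw in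
omit [DecidableEq k] [CharZero k] in
lemma A6_ne : A6 t ≠ 0 := div_ne_zero (pow_ne_zero _ h1) (pow_ne_zero _ hw)

include h1 hw in
omit [DecidableEq k] [CharZero k] in
lemma C6_ne : C6 t ≠ 0 := div_ne_zero (pow_ne_zero _ h1) (pow_ne_zero _ hw)

omit [DecidableEq k] [CharZero k] [DecidableEq F] in
lemma amA : algebraMap k F (A6 t) = (1 - algebraMap k F t) ^ 6 /
    (3 * algebraMap k F t ^ 2 - 3 * algebraMap k F t + 1) ^ 2 := by
  unfold A6
  simp only [map_div₀, map_mul, map_sub, map_add, map_pow, map_one, map_ofNat]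

omit [DecidableEq k] [CharZero k] [DecidableEq F] in
lemma amC : algebraMap k F (C6 t) = (1 - algebraMap k F t) ^ 9 /
    (3 * algebraMap k F t ^ 2 - 3 * algebraMap k F t + 1) ^ 3 := by
  unfold C6
  simp only [map_div₀, map_mul, map_sub, map_add, map_pow, map_one, map_ofNat]

include h1 h2 hw hg in
omit [DecidableEq k] [CharZero k] [DecidableEq F] in
lemma xb6 : X6 t x - algebraMap k F (UE6.bb (c6 t)) = algebraMap k F (A6 t) *
      ((x - algebraMap k F (bb t)) * (x - algebraMap k F (x4 t)) / (x - algebraMap k F (x6 t))) ∧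
    X6 t x - algebraMap k F (UE6.cc (c6 t)) = algebraMap k F (A6 t) *
      ((x - algebraMap k F (cc t)) ^ 2 / (x - algebraMap k F (x6 t))) := by
  obtain ⟨n1, n2, n3⟩ := nzF (F := F) h1 h2 hw
  obtain ⟨e1, e2⟩ := am6 (F := F) t
  obtain ⟨a1, a2, a4, a5, a6⟩ := am (F := F) t
  have hx := hg.x_sub_ne (x6 t)
  have hA : algebraMap k F ((1 - t) ^ 6 / (3 * t ^ 2 - 3 * t + 1) ^ 2) = algebraMap k F (A6 t) := rfl
  obtain ⟨k1, k2⟩ := ab_aux (x := x) n1 n3 rfl rfl rfl rfl
  rw [← amA, ← a5] at k1 k2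
  have ex : x - algebraMap k F (x6 t) = x + algebraMap k F t *
      (3 * algebraMap k F t ^ 2 - 3 * algebraMap k F t + 1) / (1 - algebraMap k F t) := by
    rw [a6, sub_neg_eq_add]
  rw [← ex] at k1 k2
  constructor
  · rw [e2, a2, a4]
    unfold X6
    rw [hA, eq_comm, ← mul_div_assoc, ← k1]
    field_simp
  · rw [e1, a1]
    unfold X6
    rw [hA, eq_comm, ← mul_div_assoc, ← k2]
    field_simp
    ring

include ht h1 h2 hv hw hO hg in
lemma yb6 : Y6 t x y = algebraMap k F (C6 t) * (y * (y - (algebraMap k F ((2 * t - 1) *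
      (2 * t ^ 2 - 2 * t + 1) / (1 - t) ^ 3) * x + algebraMap k F (-(t * (2 * t - 1) ^ 2 *
      (2 * t ^ 2 - 2 * t + 1) ^ 2 * (3 * t ^ 2 - 3 * t + 1) / (1 - t) ^ 7)))) *
      (x - algebraMap k F (x4 t)) / ((x - algebraMap k F (x6 t)) *
      (y - (algebraMap k F (-(1 - t)) * x + algebraMap k F (t * (2 * t - 1) *
      (2 * t ^ 2 - 2 * t + 1) * (3 * t ^ 2 - 3 * t + 1) / (1 - t) ^ 3))))) ∧
    Y6 t x y - algebraMap k F (UE6.cc (c6 t)) * X6 t x = algebraMap k F (C6 t) *
      ((y - algebraMap k F (s3 t) * x) * (y - (algebraMap k F (t * (2 * t - 1) *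
      (3 * t ^ 2 - 4 * t + 2) / (1 - t) ^ 3) * x + algebraMap k F (-(t ^ 2 * (2 * t - 1) ^ 2 *
      (2 * t ^ 2 - 2 * t + 1) * (3 * t ^ 2 - 3 * t + 1) / (1 - t) ^ 6)))) *
      (x - algebraMap k F (cc t)) / ((x - algebraMap k F (x6 t)) *
      (y - (algebraMap k F (t * (3 * t - 2) / (1 - t)) * x + algebraMap k F (t ^ 2 * (2 * t - 1) *
      (3 * t ^ 2 - 3 * t + 1) / (1 - t) ^ 3))))) := by
  have q1 := (l68 ht h1 h2 hw (hO := hO) hg).1.1
  have q2 := (l33 ht h1 h2 hw (hO := hO) hg).1.1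
  have hx := hg.x_sub_ne (x6 t)
  obtain ⟨n1, n2, n3⟩ := nzF (F := F) h1 h2 hw
  obtain ⟨e1, e2⟩ := am6 (F := F) t
  obtain ⟨a1, a2, a4, a5, a6⟩ := am (F := F) t
  have hc := curve h1 hg
  have ex : x - algebraMap k F (x6 t) = x + algebraMap k F t *
      (3 * algebraMap k F t ^ 2 - 3 * algebraMap k F t + 1) / (1 - algebraMap k F t) := by
    rw [a6, sub_neg_eq_add]
  have k4 := id4_aux (x := x) (y := y) n1 n3 rfl rfl rfl rfl
  have k5 := id5_aux (x := x) (y := y) n1 n3 rfl rfl rfl rfl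
  rw [hc, mul_zero, sub_eq_zero, ← amC, ← ex, ← a4] at k4
  rw [hc, mul_zero, sub_eq_zero, ← amC, ← ex, ← a1, ← amA, ← a5] at k5
  constructor
  · rw [← mul_div_assoc, eq_div_iff (mul_ne_zero hx q1)]
    unfold Y6
    rw [div_mul_eq_mul_div, div_eq_iff (pow_ne_zero 2 hx)]
    simp only [map_div₀, map_mul, map_sub, map_add, map_pow, map_one, map_ofNat, map_neg]
    rw [← amC]
    linear_combination (x - algebraMap k F (x6 t)) * k4
  · rw [← mul_div_assoc, eq_div_iff (mul_ne_zero hx q2), e1]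
    unfold Y6 X6 s3
    have hA : algebraMap k F ((1 - t) ^ 6 / (3 * t ^ 2 - 3 * t + 1) ^ 2) =
      algebraMap k F (A6 t) := rfl
    rw [hA]
    simp only [map_div₀, map_mul, map_sub, map_add, map_pow, map_one, map_ofNat, map_neg]
    rw [← amC]
    have hB : x - algebraMap k F (x6 t) ≠ 0 := hx
    generalize x - algebraMap k F (x6 t) = B at k5 hB ⊢
    rw [show algebraMap k F t * (3 * algebraMap k F t - 2) / (1 - algebraMap k F t) * x +
      algebraMap k F t ^ 2 * (2 * algebraMap k F t - 1) *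
        (3 * algebraMap k F t ^ 2 - 3 * algebraMap k F t + 1) / (1 - algebraMap k F t) ^ 3 =
      algebraMap k F t * (3 * algebraMap k F t - 2) / (1 - algebraMap k F t) * x +
      algebraMap k F t ^ 2 * (2 * algebraMap k F t - 1) *
        (3 * algebraMap k F t ^ 2 - 3 * algebraMap k F t + 1) / (1 - algebraMap k F t) ^ 3 from rfl]
    apply mul_left_cancel₀ hB
    generalize (algebraMap k F (C6 t) * x ^ 2 + 2 * algebraMap k F t *
      (1 - algebraMap k F t) ^ 8 / (3 * algebraMap k F t ^ 2 - 3 * algebraMap k F t + 1) ^ 2 * x -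
      algebraMap k F t ^ 2 * (1 - algebraMap k F t) ^ 3 * (2 * algebraMap k F t - 1) *
      (2 * algebraMap k F t ^ 2 - 2 * algebraMap k F t + 1) /
      (3 * algebraMap k F t ^ 2 - 3 * algebraMap k F t + 1)) * y +
      (-(algebraMap k F t ^ 4 * (1 - algebraMap k F t) ^ 6 /
      (3 * algebraMap k F t ^ 2 - 3 * algebraMap k F t + 1) ^ 3) * x ^ 3 +
      algebraMap k F t ^ 5 * (1 - algebraMap k F t) ^ 2 * (2 * algebraMap k F t - 1) *
      (2 * algebraMap k F t ^ 2 - 2 * algebraMap k F t + 1) /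
      (3 * algebraMap k F t ^ 2 - 3 * algebraMap k F t + 1) ^ 2 * x ^ 2) = N at k5 ⊢
    have e3 : B * ((N / B ^ 2 - -(algebraMap k F t * (1 - algebraMap k F t) *
        (2 * algebraMap k F t - 1) ^ 2 / (3 * algebraMap k F t ^ 2 - 3 * algebraMap k F t + 1)) *
        (algebraMap k F (A6 t) * (x * (x - algebraMap k F (x5 t)) / B))) * (B * (y -
        (algebraMap k F t * (3 * algebraMap k F t - 2) / (1 - algebraMap k F t) * x +
        algebraMap k F t ^ 2 * (2 * algebraMap k F t - 1) *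
        (3 * algebraMap k F t ^ 2 - 3 * algebraMap k F t + 1) / (1 - algebraMap k F t) ^ 3)))) =
      (N + algebraMap k F t * (1 - algebraMap k F t) * (2 * algebraMap k F t - 1) ^ 2 /
        (3 * algebraMap k F t ^ 2 - 3 * algebraMap k F t + 1) *
        (algebraMap k F (A6 t) * x * (x - algebraMap k F (x5 t))) * B) * (y -
        (algebraMap k F t * (3 * algebraMap k F t - 2) / (1 - algebraMap k F t) * x +
        algebraMap k F t ^ 2 * (2 * algebraMap k F t - 1) *
        (3 * algebraMap k F t ^ 2 - 3 * algebraMap k F t + 1) / (1 - algebraMap k F t) ^ 3)) := by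
      generalize y - (algebraMap k F t * (3 * algebraMap k F t - 2) / (1 - algebraMap k F t) * x +
        algebraMap k F t ^ 2 * (2 * algebraMap k F t - 1) *
        (3 * algebraMap k F t ^ 2 - 3 * algebraMap k F t + 1) / (1 - algebraMap k F t) ^ 3) = L
      generalize algebraMap k F t * (1 - algebraMap k F t) * (2 * algebraMap k F t - 1) ^ 2 /
        (3 * algebraMap k F t ^ 2 - 3 * algebraMap k F t + 1) = C
      field_simp
      ring
    rw [e3, k5]
    ring

end six

end Pool.Agent.UE12
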