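import Pool.Agent.Lib_helper76.UE12.D

/-!
# Points of order twelve: the quotient by `6P`
-/

set_option autoImplicit false
set_option linter.unusedSectionVars false

namespace Pool.Agent.UE12

open WeierstrassCurve.Affine Polynomial GK UP
open UEG (Gen IsUn LineOK P0 negY_wt)
open UEN
open TN (Wt)

/-- a generic point of a curve in Tate's normal form -/
lemma mkGen {k F : Type*} [Field k] [Field F] [Algebra k F] {b c : k} {x y : F}
    (h : y ^ 2 + (1 - algebraMap k F c) * x * y - algebraMap k F b * y =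
      x ^ 3 - algebraMap k F b * x ^ 2) (ht : Transcendental k x) : Gen (Wt b c) x y := by
  refine ⟨?_, ht⟩
  show y ^ 2 + algebraMap k F (1 - c) * x * y + algebraMap k F (-b) * y =
    x ^ 3 + algebraMap k F (-b) * x ^ 2 + algebraMap k F 0 * x + algebraMap k F 0
  rw [map_sub, map_one, map_neg, map_zero]
  linear_combination h

section six

variable {k : Type*} [Field k] [DecidableEq k] [CharZero k] {t : k} (ht : t ≠ 0) (h1 : 1 - t ≠ 0)
  (h2 : 2 * t - 1 ≠ 0) (hv : 2 * t ^ 2 - 2 * t + 1 ≠ 0) (hw : 3 * t ^ 2 - 3 * t + 1 ≠ 0)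
  {hb : bb t ≠ 0} {hO : addOrderOf (P0 (cc t) hb) = 12}
  {F : Type*} [Field F] [DecidableEq F] [Algebra k F] {x y : F}
  [Fintype (AddSubgroup.zmultiples (P0 (cc t) hb))]
  [DecidableEq (AddSubgroup.zmultiples (P0 (cc t) hb))] (hg : Gen (Wt (bb t) (cc t)) x y)

include h1 in
omit [DecidableEq k] [CharZero k] in
lemma x56 : x6 t - x5 t = -(t ^ 5 * (3 * t ^ 2 - 3 * t + 1) / (1 - t) ^ 5) := by
  unfold x5 x6
  field_simp
  ring

include ht h1 h2 hw hg in
omit [DecidableEq k] [CharZero k] [DecidableEq F] in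
lemma gen6 : Gen (Wt (UE6.bb (c6 t)) (UE6.cc (c6 t))) (X6 t x) (Y6 t x y) := by
  refine mkGen (eq6 h1 h2 hw hg) ?_
  refine tr_of hg.tr (C (A6 t) * (X * (X - C (x5 t)))) (X - C (x6 t)) (a := x6 t) ?_ ?_ ?_
  · have hx := hg.x_sub_ne (x6 t)
    simp only [map_mul, map_sub, aeval_C, aeval_X]
    unfold X6 A6
    field_simp
  · simp
  · have e : (C (A6 t) * (X * (X - C (x5 t)))).eval (x6 t) = A6 t * (x6 t * (x6 t - x5 t)) := by
      simp
    rw [e, x56 h1]
    refine mul_ne_zero (A6_ne h1 hw) (mul_ne_zero ?_ (neg_ne_zero.mpr ?_))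
    · exact neg_ne_zero.mpr (div_ne_zero (mul_ne_zero ht hw) h1)
    · exact div_ne_zero (mul_ne_zero (pow_ne_zero 5 ht) hw) (pow_ne_zero 5 h1)

include ht h1 h2 hv hw in
/-- the functions of the quotient by `6P` -/
lemma pqE6 (j : Fin 5) : PQ hO hg (u6 (c6 t) (X6 t x) (Y6 t x y) j) (pb r6 (b6 j)) := by
  have V1 := v1 hO hg
  have V2 := v2 (hO := hO) hg
  have V3 := v3 (hO := hO) hg
  have V4 := v4 ht h1 h2 hw (hO := hO) hg
  have V5 := v5 ht h1 h2 hw (hO := hO) hg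
  have V6 := v6 ht h1 h2 hw (hO := hO) hg
  have L1 := l11 hO hg
  have L13 := l13 ht h1 h2 hw hO hg
  have L77 := l77 ht h1 h2 hv hw (hO := hO) hg
  have L68 := l68 ht h1 h2 hw (hO := hO) hg
  have L23 := l23 ht h1 h2 hw (hO := hO) hg
  have L33 := l33 ht h1 h2 hw (hO := hO) hg
  obtain ⟨e1, e2⟩ := xb6 h1 h2 hw hg
  obtain ⟨e3, e4⟩ := yb6 ht h1 h2 hv hw (hO := hO) hg
  fin_cases j
  · show PQ hO hg (X6 t x) (pb r6 (b6 0))
    have := ((V1.mul V5).mul V6.inv).smul (A6_ne h1 hw)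
    rw [← div_eq_mul_inv] at this
    exact this.congr (by decide)
  · show PQ hO hg (X6 t x - algebraMap k F (UE6.bb (c6 t))) (pb r6 (b6 1))
    rw [e1]
    have := ((V2.mul V4).mul V6.inv).smul (A6_ne h1 hw)
    rw [← div_eq_mul_inv] at this
    exact this.congr (by decide)
  · show PQ hO hg (X6 t x - algebraMap k F (UE6.cc (c6 t))) (pb r6 (b6 2))
    rw [e2]
    have := ((V3.pow 2).mul V6.inv).smul (A6_ne h1 hw)
    rw [← div_eq_mul_inv] at this
    exact this.congr (by decide)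
  · show PQ hO hg (Y6 t x y) (pb r6 (b6 3))
    rw [e3]
    have := (((L1.mul L77).mul V4).mul (V6.mul L68).inv).smul (C6_ne h1 hw)
    rw [← div_eq_mul_inv] at this
    exact this.congr (by decide)
  · show PQ hO hg (Y6 t x y - algebraMap k F (UE6.cc (c6 t)) * X6 t x) (pb r6 (b6 4))
    rw [e4]
    have := (((L13.mul L23).mul V3).mul (V6.mul L33).inv).smul (C6_ne h1 hw)
    rw [← div_eq_mul_inv] at this
    exact this.congr (by decide)

include ht h1 h2 hv hw in
/-- **the quotient by `6P`** -/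
theorem lk6 {hb6 : UE6.bb (c6 t) ≠ 0}
    [Fintype (AddSubgroup.zmultiples (P0 (UE6.cc (c6 t)) hb6))]
    [DecidableEq (AddSubgroup.zmultiples (P0 (UE6.cc (c6 t)) hb6))] :
    Lk hO (ord6 hb6) hg (gen6 ht h1 h2 hw hg) (pb r6) :=
  lk_of bas6 (fun _ _ => rfl) (pq_u6 (ord6 hb6) _) (pqE6 ht h1 h2 hv hw hg)

end six

end Pool.Agent.UE12
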