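import Pool.Agent.Lib_helper76.UE12.E

/-!
# Points of order twelve: the quotient by `4P`
-/

set_option autoImplicit false
set_option linter.unusedSectionVars false

namespace Pool.Agent.UE12

open WeierstrassCurve.Affine Polynomial GK UP
open UEG (Gen IsUn LineOK P0 negY_wt)
open UEN
open TN (Wt)

section defs

variable {k : Type*} [Field k] {F : Type*} [Field F] [Algebra k F]

/-- the parameter of the quotient by `4P` -/
def b4 (t : k) : k := -(t * (1 - t) * (3 * t ^ 2 - 3 * t + 1) ^ 3 / (2 * t - 1) ^ 2)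

/-- the constant of the abscissa -/
def A4 (t : k) : k := (1 - t) ^ 6 / (2 * t - 1) ^ 2

/-- the constant of the ordinate -/
def C4 (t : k) : k := -((1 - t) ^ 9 / (2 * t - 1) ^ 3)

/-- the abscissa of the quotient by `4P` -/
def X4 (t : k) (x : F) : F := algebraMap k F (A4 t) *
  (x * (x - algebraMap k F (cc t)) * (x - algebraMap k F (x5 t)) /
    (x - algebraMap k F (x4 t)) ^ 2)

/-- the ordinate of the quotient by `4P` -/
def Y4 (t : k) (x y : F) : F :=
  ((-((1 - algebraMap k F t) ^ 9 / (2 * algebraMap k F t - 1) ^ 3) * x ^ 3 +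
      3 * algebraMap k F t * (1 - algebraMap k F t) ^ 7 *
      (2 * algebraMap k F t ^ 2 - 2 * algebraMap k F t + 1) / (2 * algebraMap k F t - 1) ^ 2 *
      x ^ 2 - (-6 * algebraMap k F t ^ 3 + 11 * algebraMap k F t ^ 2 - 9 * algebraMap k F t + 3) *
      algebraMap k F t ^ 2 * (1 - algebraMap k F t) *
      (2 * algebraMap k F t ^ 2 - 2 * algebraMap k F t + 1) *
      (3 * algebraMap k F t ^ 2 - 3 * algebraMap k F t + 1) / (2 * algebraMap k F t - 1) * x +
      algebraMap k F t ^ 3 * (2 * algebraMap k F t ^ 2 - 2 * algebraMap k F t + 1) ^ 2 *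
      (3 * algebraMap k F t ^ 2 - 3 * algebraMap k F t + 1) ^ 2 / (1 - algebraMap k F t)) * y +
    (-((3 * algebraMap k F t - 1) * algebraMap k F t ^ 2 * (1 - algebraMap k F t) ^ 7 /
      (2 * algebraMap k F t - 1) ^ 3) * x ^ 4 +
      (-6 * algebraMap k F t ^ 4 + 19 * algebraMap k F t ^ 3 - 21 * algebraMap k F t ^ 2 +
      11 * algebraMap k F t - 2) * algebraMap k F t ^ 3 * (1 - algebraMap k F t) ^ 2 *
      (3 * algebraMap k F t ^ 2 - 3 * algebraMap k F t + 1) / (2 * algebraMap k F t - 1) ^ 2 *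
      x ^ 3 +
      (-5 * algebraMap k F t ^ 3 + 8 * algebraMap k F t ^ 2 - 5 * algebraMap k F t + 1) *
      algebraMap k F t ^ 4 * (2 * algebraMap k F t ^ 2 - 2 * algebraMap k F t + 1) *
      (3 * algebraMap k F t ^ 2 - 3 * algebraMap k F t + 1) ^ 2 /
      ((1 - algebraMap k F t) ^ 2 * (2 * algebraMap k F t - 1)) * x ^ 2)) /
    (x - algebraMap k F (x4 t)) ^ 3

end defs

section four

variable {k : Type*} [Field k] [DecidableEq k] [CharZero k] {t : k} (ht : t ≠ 0) (h1 : 1 - t ≠ 0)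
  (h2 : 2 * t - 1 ≠ 0) (hv : 2 * t ^ 2 - 2 * t + 1 ≠ 0) (hw : 3 * t ^ 2 - 3 * t + 1 ≠ 0)
  {hb : bb t ≠ 0} {hO : addOrderOf (P0 (cc t) hb) = 12}
  {F : Type*} [Field F] [DecidableEq F] [Algebra k F] {x y : F}
  [Fintype (AddSubgroup.zmultiples (P0 (cc t) hb))]
  [DecidableEq (AddSubgroup.zmultiples (P0 (cc t) hb))] (hg : Gen (Wt (bb t) (cc t)) x y)

include ht h1 h2 hw in
omit [DecidableEq k] [CharZero k] in
lemma b4_ne : b4 t ≠ 0 := neg_ne_zero.mpr (div_ne_zero (mul_ne_zero (mul_ne_zero ht h1)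
  (pow_ne_zero 3 hw)) (pow_ne_zero 2 h2))

include h1 h2 in
omit [DecidableEq k] [CharZero k] in
lemma A4_ne : A4 t ≠ 0 := div_ne_zero (pow_ne_zero _ h1) (pow_ne_zero _ h2)

include h1 h2 in
omit [DecidableEq k] [CharZero k] in
lemma C4_ne : C4 t ≠ 0 := neg_ne_zero.mpr (div_ne_zero (pow_ne_zero _ h1) (pow_ne_zero _ h2))

omit [DecidableEq k] [CharZero k] [DecidableEq F] in
lemma am4 (t : k) : algebraMap k F (A4 t) = (1 - algebraMap k F t) ^ 6 /
      (2 * algebraMap k F t - 1) ^ 2 ∧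
    algebraMap k F (C4 t) = -((1 - algebraMap k F t) ^ 9 / (2 * algebraMap k F t - 1) ^ 3) ∧
    algebraMap k F (b4 t) = -(algebraMap k F t * (1 - algebraMap k F t) *
      (3 * algebraMap k F t ^ 2 - 3 * algebraMap k F t + 1) ^ 3 /
      (2 * algebraMap k F t - 1) ^ 2) := by
  refine ⟨?_, ?_, ?_⟩
  · unfold A4
    simp only [map_div₀, map_mul, map_sub, map_add, map_pow, map_one, map_ofNat, map_neg]
  · unfold C4
    simp only [map_div₀, map_mul, map_sub, map_add, map_pow, map_one, map_ofNat, map_neg]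
  · unfold b4
    simp only [map_div₀, map_mul, map_sub, map_add, map_pow, map_one, map_ofNat, map_neg]

include h1 h2 hg in
omit [DecidableEq k] [CharZero k] [DecidableEq F] in
/-- the Weierstrass equation of the quotient -/
lemma eq4 : Y4 t x y ^ 2 + (1 - algebraMap k F 0) * X4 t x * Y4 t x y -
      algebraMap k F (b4 t) * Y4 t x y =
    X4 t x ^ 3 - algebraMap k F (b4 t) * X4 t x ^ 2 := by
  have n1 : 1 - algebraMap k F t ≠ 0 := by
    have := (_root_.map_ne_zero (algebraMap k F)).mpr h1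
    simpa only [map_sub, map_one] using this
  have n2 : 2 * algebraMap k F t - 1 ≠ 0 := by
    have := (_root_.map_ne_zero (algebraMap k F)).mpr h2
    simpa only [map_sub, map_one, map_mul, map_ofNat] using this
  obtain ⟨e1, e2, e3⟩ := am4 (F := F) t
  obtain ⟨a1, -, a4, a5, -⟩ := am (F := F) t
  have hx := hg.x_sub_ne (x4 t)
  have hc := curve h1 hg
  have hX : X4 t x = algebraMap k F (A4 t) * (x * (x - algebraMap k F (cc t)) *
    (x - algebraMap k F (x5 t))) / (x - algebraMap k F (x4 t)) ^ 2 := by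
    unfold X4
    rw [← mul_div_assoc]
  obtain ⟨N1, hN1⟩ : ∃ N, N = -((1 - algebraMap k F t) ^ 9 / (2 * algebraMap k F t - 1) ^ 3) *
      x ^ 3 + 3 * algebraMap k F t * (1 - algebraMap k F t) ^ 7 *
      (2 * algebraMap k F t ^ 2 - 2 * algebraMap k F t + 1) / (2 * algebraMap k F t - 1) ^ 2 *
      x ^ 2 - (-6 * algebraMap k F t ^ 3 + 11 * algebraMap k F t ^ 2 - 9 * algebraMap k F t + 3) *
      algebraMap k F t ^ 2 * (1 - algebraMap k F t) *
      (2 * algebraMap k F t ^ 2 - 2 * algebraMap k F t + 1) *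
      (3 * algebraMap k F t ^ 2 - 3 * algebraMap k F t + 1) / (2 * algebraMap k F t - 1) * x +
      algebraMap k F t ^ 3 * (2 * algebraMap k F t ^ 2 - 2 * algebraMap k F t + 1) ^ 2 *
      (3 * algebraMap k F t ^ 2 - 3 * algebraMap k F t + 1) ^ 2 / (1 - algebraMap k F t) :=
    ⟨_, rfl⟩
  obtain ⟨N0, hN0⟩ : ∃ N, N = -((3 * algebraMap k F t - 1) * algebraMap k F t ^ 2 *
      (1 - algebraMap k F t) ^ 7 / (2 * algebraMap k F t - 1) ^ 3) * x ^ 4 +
      (-6 * algebraMap k F t ^ 4 + 19 * algebraMap k F t ^ 3 - 21 * algebraMap k F t ^ 2 +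
      11 * algebraMap k F t - 2) * algebraMap k F t ^ 3 * (1 - algebraMap k F t) ^ 2 *
      (3 * algebraMap k F t ^ 2 - 3 * algebraMap k F t + 1) / (2 * algebraMap k F t - 1) ^ 2 *
      x ^ 3 +
      (-5 * algebraMap k F t ^ 3 + 8 * algebraMap k F t ^ 2 - 5 * algebraMap k F t + 1) *
      algebraMap k F t ^ 4 * (2 * algebraMap k F t ^ 2 - 2 * algebraMap k F t + 1) *
      (3 * algebraMap k F t ^ 2 - 3 * algebraMap k F t + 1) ^ 2 /
      ((1 - algebraMap k F t) ^ 2 * (2 * algebraMap k F t - 1)) * x ^ 2 := ⟨_, rfl⟩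
  have hY : Y4 t x y = (N1 * y + N0) / (x - algebraMap k F (x4 t)) ^ 3 := by
    rw [hN1, hN0]
    rfl
  have key := eq4_aux (y := y) n1 n2 rfl rfl rfl rfl rfl hN1 hN0 rfl
  rw [hc, mul_zero, ← a1, ← a4, ← a5, ← e1] at key
  rw [hX, hY, e3, map_zero]
  generalize algebraMap k F (A4 t) * (x * (x - algebraMap k F (cc t)) *
    (x - algebraMap k F (x5 t))) = M at key ⊢
  generalize N1 * y + N0 = N at key ⊢
  generalize algebraMap k F t * (1 - algebraMap k F t) *
      (3 * algebraMap k F t ^ 2 - 3 * algebraMap k F t + 1) ^ 3 /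
      (2 * algebraMap k F t - 1) ^ 2 = C at key ⊢
  generalize x - algebraMap k F (x4 t) = A at key hx ⊢
  rw [← sub_eq_zero]
  have e3 : (N / A ^ 3) ^ 2 + (1 - 0) * (M / A ^ 2) * (N / A ^ 3) - -C * (N / A ^ 3) -
      ((M / A ^ 2) ^ 3 - -C * (M / A ^ 2) ^ 2) = (N ^ 2 + M * N * A + C * N * A ^ 3 -
      (M ^ 3 + C * M ^ 2 * A ^ 2)) / A ^ 6 := by
    field_simp
    ring
  rw [e3, key, zero_div]

include h1 in
omit [DecidableEq k] [CharZero k] in
lemma x43 : x4 t - cc t = -(t ^ 3 * (2 * t - 1) ^ 2 / (1 - t) ^ 3) := by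
  unfold x4 cc
  field_simp
  ring

include h1 in
omit [DecidableEq k] [CharZero k] in
lemma x45 : x4 t - x5 t = -(t ^ 4 * (2 * t - 1) * (2 * t ^ 2 - 2 * t + 1) / (1 - t) ^ 5) := by
  unfold x4 x5
  field_simp
  ring

include ht h1 h2 hv hg in
omit [DecidableEq k] [CharZero k] [DecidableEq F] in
lemma gen4 : Gen (Wt (b4 t) 0) (X4 t x) (Y4 t x y) := by
  refine mkGen (eq4 h1 h2 hg) ?_
  refine tr_of hg.tr (C (A4 t) * (X * (X - C (cc t)) * (X - C (x5 t)))) ((X - C (x4 t)) ^ 2)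
    (a := x4 t) ?_ ?_ ?_
  · have hx := hg.x_sub_ne (x4 t)
    simp only [map_mul, map_sub, map_pow, aeval_C, aeval_X]
    unfold X4
    field_simp
  · simp
  · have e : (C (A4 t) * (X * (X - C (cc t)) * (X - C (x5 t)))).eval (x4 t) =
        A4 t * (x4 t * (x4 t - cc t) * (x4 t - x5 t)) := by
      simp
    rw [e, x43 h1, x45 h1]
    refine mul_ne_zero (A4_ne h1 h2) (mul_ne_zero (mul_ne_zero ?_ (neg_ne_zero.mpr ?_))
      (neg_ne_zero.mpr ?_))
    · exact div_ne_zero (mul_ne_zero (mul_ne_zero ht h2) hv) (pow_ne_zero 2 h1)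
    · exact div_ne_zero (mul_ne_zero (pow_ne_zero 3 ht) (pow_ne_zero 2 h2)) (pow_ne_zero 3 h1)
    · exact div_ne_zero (mul_ne_zero (mul_ne_zero (pow_ne_zero 4 ht) h2) hv) (pow_ne_zero 5 h1)

include h1 h2 hg in
omit [DecidableEq k] [CharZero k] [DecidableEq F] in
lemma xb4 : X4 t x - algebraMap k F (b4 t) = algebraMap k F (A4 t) *
      ((x - algebraMap k F (bb t)) ^ 2 * (x - algebraMap k F (x6 t)) /
        (x - algebraMap k F (x4 t)) ^ 2) := by
  have n1 : 1 - algebraMap k F t ≠ 0 := by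
    have := (_root_.map_ne_zero (algebraMap k F)).mpr h1
    simpa only [map_sub, map_one] using this
  have n2 : 2 * algebraMap k F t - 1 ≠ 0 := by
    have := (_root_.map_ne_zero (algebraMap k F)).mpr h2
    simpa only [map_sub, map_one, map_mul, map_ofNat] using this
  obtain ⟨e1, e2, e3⟩ := am4 (F := F) t
  obtain ⟨a1, a2, a4, a5, a6⟩ := am (F := F) t
  have hx := hg.x_sub_ne (x4 t)
  have key := ab4_aux (x := x) n1 n2 rfl rfl rfl rfl
  have ex : x - algebraMap k F (x6 t) = x + algebraMap k F t *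
      (3 * algebraMap k F t ^ 2 - 3 * algebraMap k F t + 1) / (1 - algebraMap k F t) := by
    rw [a6, sub_neg_eq_add]
  rw [← a1, ← a2, ← a4, ← a5, ← ex, ← e1] at key
  rw [e3, eq_comm, ← mul_div_assoc, ← key]
  unfold X4
  generalize algebraMap k F t * (1 - algebraMap k F t) *
      (3 * algebraMap k F t ^ 2 - 3 * algebraMap k F t + 1) ^ 3 /
      (2 * algebraMap k F t - 1) ^ 2 = C
  generalize x - algebraMap k F (x4 t) = A at hx ⊢
  field_simp
  ring

include h1 h2 hg in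
omit [DecidableEq k] [CharZero k] [DecidableEq F] in
lemma yb4 : Y4 t x y = algebraMap k F (C4 t) * (y * (y - (algebraMap k F
      (-(2 * t * (3 * t ^ 2 - 3 * t + 1) / (1 - t) ^ 2)) * x + algebraMap k F (t ^ 2 *
      (2 * t - 1) * (2 * t ^ 2 - 2 * t + 1) * (3 * t ^ 2 - 3 * t + 1) ^ 2 / (1 - t) ^ 7))) *
      (y - (algebraMap k F ((t ^ 2 + t - 1) * (3 * t ^ 2 - 3 * t + 1) / (1 - t) ^ 3) * x +
      algebraMap k F (t * (2 * t - 1) * (3 * t ^ 2 - 3 * t + 1) ^ 2 / (1 - t) ^ 4))) /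
      (x - algebraMap k F (x4 t)) ^ 3) := by
  have n1 : 1 - algebraMap k F t ≠ 0 := by
    have := (_root_.map_ne_zero (algebraMap k F)).mpr h1
    simpa only [map_sub, map_one] using this
  have n2 : 2 * algebraMap k F t - 1 ≠ 0 := by
    have := (_root_.map_ne_zero (algebraMap k F)).mpr h2
    simpa only [map_sub, map_one, map_mul, map_ofNat] using this
  obtain ⟨e1, e2, e3⟩ := am4 (F := F) t
  have hx := hg.x_sub_ne (x4 t)
  have hc := curve h1 hg
  have key := idy4_aux (x := x) (y := y) n1 n2 rfl rfl rfl rfl rfl rfl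
  rw [hc, mul_zero, sub_eq_zero, ← e2] at key
  rw [← mul_div_assoc, eq_div_iff (pow_ne_zero 3 hx)]
  unfold Y4
  rw [div_mul_cancel₀ _ (pow_ne_zero 3 hx), ← e2]
  simp only [map_div₀, map_mul, map_sub, map_add, map_pow, map_one, map_ofNat, map_neg]
  exact key

include ht h1 h2 hv hw in
/-- the functions of the quotient by `4P` -/
lemma pqE4 (j : Fin 3) : PQ hO hg (u4 (b4 t) (X4 t x) (Y4 t x y) j) (pb r4 (UEN.b4 j)) := by
  have V1 := v1 hO hg
  have V2 := v2 (hO := hO) hg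
  have V3 := v3 (hO := hO) hg
  have V4 := v4 ht h1 h2 hw (hO := hO) hg
  have V5 := v5 ht h1 h2 hw (hO := hO) hg
  have V6 := v6 ht h1 h2 hw (hO := hO) hg
  have L1 := l11 hO hg
  have L25 := l25 ht h1 h2 hv hw (hO := hO) hg
  have L69 := l69 ht h1 h2 hw (hO := hO) hg
  fin_cases j
  · show PQ hO hg (X4 t x) (pb r4 (UEN.b4 0))
    have := (((V1.mul V3).mul V5).mul (V4.pow 2).inv).smul (A4_ne h1 h2)
    rw [← div_eq_mul_inv] at this
    exact this.congr (by decide)
  · show PQ hO hg (X4 t x - algebraMap k F (b4 t)) (pb r4 (UEN.b4 1))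
    rw [xb4 h1 h2 hg]
    have := (((V2.pow 2).mul V6).mul (V4.pow 2).inv).smul (A4_ne h1 h2)
    rw [← div_eq_mul_inv] at this
    exact this.congr (by decide)
  · show PQ hO hg (Y4 t x y) (pb r4 (UEN.b4 2))
    rw [yb4 h1 h2 hg]
    have := (((L1.mul L25).mul L69).mul (V4.pow 3).inv).smul (C4_ne h1 h2)
    rw [← div_eq_mul_inv] at this
    exact this.congr (by decide)

include ht h1 h2 hv hw in
/-- **the quotient by `4P`** -/
theorem lk4 {hb4 : b4 t ≠ 0}
    [Fintype (AddSubgroup.zmultiples (P0 (0 : k) hb4))]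
    [DecidableEq (AddSubgroup.zmultiples (P0 (0 : k) hb4))] :
    Lk hO (ord4 hb4) hg (gen4 ht h1 h2 hv hg) (pb r4) :=
  lk_of bas4 (fun _ _ => rfl) (pq_u4 (ord4 hb4) _) (pqE4 ht h1 h2 hv hw hg)

end four

end Pool.Agent.UE12
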