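import Pool.Agent.Lib_helper76.UE12.Q

/-!
# Points of order twelve: the point `2P`
-/

set_option autoImplicit false
set_option linter.unusedSectionVars false
set_option linter.unusedSimpArgs false

namespace Pool.Agent.UE12

open WeierstrassCurve.Affine Polynomial GK UP
open UEG (Gen IsUn LineOK P0 negY_wt)
open UEN
open TN (Wt)

section defs

variable {k : Type*} [Field k] {F : Type*} [Field F] [Algebra k F]

/-- the parameter of the point `2P` -/
def c2 (t : k) : k := -(t ^ 2 * (1 - t) ^ 2 / (3 * t ^ 2 - 3 * t + 1) ^ 2)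

/-- the constant of the abscissa -/
def A2 (t : k) : k := (1 - t) ^ 6 / (3 * t ^ 2 - 3 * t + 1) ^ 4

/-- the constant of the ordinate -/
def C2 (t : k) : k := (1 - t) ^ 9 / (3 * t ^ 2 - 3 * t + 1) ^ 6

/-- the abscissa -/
def X2 (t : k) (x : F) : F := algebraMap k F (A2 t) * (x - algebraMap k F (bb t))

/-- the ordinate -/
def Y2 (t : k) (x y : F) : F := algebraMap k F (C2 t) *
  (y - (algebraMap k F ((4 * t ^ 2 - 5 * t + 2) * t * (2 * t - 1) / (1 - t) ^ 3) * x +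
    algebraMap k F (-(t ^ 2 * (2 * t - 1) ^ 2 * (2 * t ^ 2 - 2 * t + 1) *
      (3 * t ^ 2 - 3 * t + 1) / (1 - t) ^ 5))))

end defs

section two

variable {k : Type*} [Field k] [DecidableEq k] [CharZero k] {t : k} (ht : t ≠ 0) (h1 : 1 - t ≠ 0)
  (h2 : 2 * t - 1 ≠ 0) (hv : 2 * t ^ 2 - 2 * t + 1 ≠ 0) (hw : 3 * t ^ 2 - 3 * t + 1 ≠ 0)
  {hb : bb t ≠ 0} {hO : addOrderOf (P0 (cc t) hb) = 12}
  {F : Type*} [Field F] [DecidableEq F] [Algebra k F] {x y : F}
  [Fintype (AddSubgroup.zmultiples (P0 (cc t) hb))]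
  [DecidableEq (AddSubgroup.zmultiples (P0 (cc t) hb))] (hg : Gen (Wt (bb t) (cc t)) x y)

include ht h1 hw in
omit [DecidableEq k] [CharZero k] in
lemma c2_ne : c2 t ≠ 0 := neg_ne_zero.mpr (div_ne_zero (mul_ne_zero (pow_ne_zero 2 ht)
  (pow_ne_zero 2 h1)) (pow_ne_zero 2 hw))

include h2 hv hw in
omit [DecidableEq k] [CharZero k] in
lemma c2_ne1 : c2 t + 1 ≠ 0 := by
  have e : c2 t + 1 = (2 * t - 1) ^ 2 * (2 * t ^ 2 - 2 * t + 1) /
      (3 * t ^ 2 - 3 * t + 1) ^ 2 := by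
    unfold c2
    obtain ⟨w, hw'⟩ : ∃ w, w = 3 * t ^ 2 - 3 * t + 1 := ⟨_, rfl⟩
    rw [← hw'] at hw ⊢
    field_simp
    rw [hw']
    ring
  rw [e]
  exact div_ne_zero (mul_ne_zero (pow_ne_zero 2 h2) hv) (pow_ne_zero 2 hw)

include ht h1 h2 hv hw in
omit [DecidableEq k] [CharZero k] in
lemma b2_ne : UE6.bb (c2 t) ≠ 0 := by
  have e : UE6.bb (c2 t) = c2 t * (c2 t + 1) := by unfold UE6.bb; ring
  rw [e]
  exact mul_ne_zero (c2_ne ht h1 hw) (c2_ne1 h2 hv hw)

include h1 hw in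
omit [DecidableEq k] [CharZero k] in
lemma A2_ne : A2 t ≠ 0 := div_ne_zero (pow_ne_zero _ h1) (pow_ne_zero _ hw)

include h1 hw in
omit [DecidableEq k] [CharZero k] in
lemma C2_ne : C2 t ≠ 0 := div_ne_zero (pow_ne_zero _ h1) (pow_ne_zero _ hw)

omit [DecidableEq k] [CharZero k] [DecidableEq F] in
lemma am2 (t : k) : algebraMap k F (A2 t) = (1 - algebraMap k F t) ^ 6 /
      (3 * algebraMap k F t ^ 2 - 3 * algebraMap k F t + 1) ^ 4 ∧
    algebraMap k F (C2 t) = (1 - algebraMap k F t) ^ 9 /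
      (3 * algebraMap k F t ^ 2 - 3 * algebraMap k F t + 1) ^ 6 ∧
    algebraMap k F (UE6.cc (c2 t)) = -(algebraMap k F t ^ 2 * (1 - algebraMap k F t) ^ 2 /
      (3 * algebraMap k F t ^ 2 - 3 * algebraMap k F t + 1) ^ 2) ∧
    algebraMap k F (UE6.bb (c2 t)) = -(algebraMap k F t ^ 2 * (1 - algebraMap k F t) ^ 2 /
      (3 * algebraMap k F t ^ 2 - 3 * algebraMap k F t + 1) ^ 2) +
      (algebraMap k F t ^ 2 * (1 - algebraMap k F t) ^ 2 /
      (3 * algebraMap k F t ^ 2 - 3 * algebraMap k F t + 1) ^ 2) ^ 2 := by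
  refine ⟨?_, ?_, ?_, ?_⟩
  · unfold A2
    simp only [map_div₀, map_mul, map_sub, map_add, map_pow, map_one, map_ofNat, map_neg]
  · unfold C2
    simp only [map_div₀, map_mul, map_sub, map_add, map_pow, map_one, map_ofNat, map_neg]
  · unfold UE6.cc c2
    simp only [map_div₀, map_mul, map_sub, map_add, map_pow, map_one, map_ofNat, map_neg]
  · unfold UE6.bb c2
    simp only [map_div₀, map_mul, map_sub, map_add, map_pow, map_one, map_ofNat, map_neg]
    ring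

omit [DecidableEq k] [CharZero k] [DecidableEq F] in
lemma xy2 (t : k) (x y : F) : X2 t x = (1 - algebraMap k F t) ^ 6 /
      (3 * algebraMap k F t ^ 2 - 3 * algebraMap k F t + 1) ^ 4 *
      (x - algebraMap k F t * (2 * algebraMap k F t - 1) *
      (2 * algebraMap k F t ^ 2 - 2 * algebraMap k F t + 1) *
      (3 * algebraMap k F t ^ 2 - 3 * algebraMap k F t + 1) / (1 - algebraMap k F t) ^ 4) ∧
    Y2 t x y = (1 - algebraMap k F t) ^ 9 /
      (3 * algebraMap k F t ^ 2 - 3 * algebraMap k F t + 1) ^ 6 *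
      (y - ((4 * algebraMap k F t ^ 2 - 5 * algebraMap k F t + 2) * algebraMap k F t *
      (2 * algebraMap k F t - 1) / (1 - algebraMap k F t) ^ 3 * x +
      -(algebraMap k F t ^ 2 * (2 * algebraMap k F t - 1) ^ 2 *
      (2 * algebraMap k F t ^ 2 - 2 * algebraMap k F t + 1) *
      (3 * algebraMap k F t ^ 2 - 3 * algebraMap k F t + 1) / (1 - algebraMap k F t) ^ 5))) := by
  obtain ⟨e1, e2, -, -⟩ := am2 (F := F) t
  obtain ⟨-, a2, -, -, -⟩ := am (F := F) t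
  constructor
  · unfold X2
    rw [e1, a2]
  · unfold Y2
    rw [e2]
    simp only [map_div₀, map_mul, map_sub, map_add, map_pow, map_one, map_ofNat, map_neg]

include h1 hw hg in
omit [DecidableEq k] [CharZero k] [DecidableEq F] in
/-- the Weierstrass equation -/
lemma eq2 : Y2 t x y ^ 2 + (1 - algebraMap k F (UE6.cc (c2 t))) * X2 t x * Y2 t x y -
      algebraMap k F (UE6.bb (c2 t)) * Y2 t x y =
    X2 t x ^ 3 - algebraMap k F (UE6.bb (c2 t)) * X2 t x ^ 2 := by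
  have n1 : 1 - algebraMap k F t ≠ 0 := by
    have := (_root_.map_ne_zero (algebraMap k F)).mpr h1
    simpa only [map_sub, map_one] using this
  have n3 : 3 * algebraMap k F t ^ 2 - 3 * algebraMap k F t + 1 ≠ 0 := by
    have := (_root_.map_ne_zero (algebraMap k F)).mpr hw
    simpa only [map_sub, map_add, map_pow, map_one, map_mul, map_ofNat] using this
  obtain ⟨-, -, e1, e2⟩ := am2 (F := F) t
  obtain ⟨g1, g2⟩ := xy2 t x y
  have hc := curve h1 hg
  have key := eq2_aux n1 n3 rfl rfl rfl rfl g1 g2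
  rw [hc, mul_zero] at key
  rw [e1, e2]
  linear_combination key

include h1 hw hg in
omit [DecidableEq k] [CharZero k] [DecidableEq F] in
lemma gen2 : Gen (Wt (UE6.bb (c2 t)) (UE6.cc (c2 t))) (X2 t x) (Y2 t x y) := by
  refine mkGen (eq2 h1 hw hg) fun ha => hg.tr ?_
  have hA : algebraMap k F (A2 t) ≠ 0 := (_root_.map_ne_zero _).mpr (A2_ne h1 hw)
  have e : x = algebraMap k F (A2 t)⁻¹ * X2 t x + algebraMap k F (bb t) := by
    unfold X2
    rw [map_inv₀, ← mul_assoc, inv_mul_cancel₀ hA]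
    ring
  rw [e]
  exact ((isAlgebraic_algebraMap _).mul ha).add (isAlgebraic_algebraMap _)

include ht h1 h2 hv hw in
lemma l22 : PQ hO hg (y - (algebraMap k F ((4 * t ^ 2 - 5 * t + 2) * t * (2 * t - 1) /
    (1 - t) ^ 3) * x + algebraMap k F (-(t ^ 2 * (2 * t - 1) ^ 2 * (2 * t ^ 2 - 2 * t + 1) *
      (3 * t ^ 2 - 3 * t + 1) / (1 - t) ^ 5)))) (dL 2 2) := by
  refine pq_line hO hg p2 p2 ⟨?_, Or.inr ⟨rfl, rfl, ?_, ?_⟩⟩
  · unfold bb cc
    field_simp
    ring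
  · have e : 2 * (bb t * cc t) + (1 - cc t) * bb t - bb t = t ^ 2 * (2 * t - 1) ^ 2 *
        (2 * t ^ 2 - 2 * t + 1) * (3 * t ^ 2 - 3 * t + 1) ^ 2 / (1 - t) ^ 7 := by
      unfold bb cc
      field_simp
      ring
    rw [e]
    exact div_ne_zero (mul_ne_zero (mul_ne_zero (mul_ne_zero (pow_ne_zero 2 ht)
      (pow_ne_zero 2 h2)) hv) (pow_ne_zero 2 hw)) (pow_ne_zero 7 h1)
  · unfold bb cc
    field_simp
    ring

include ht h1 h2 hv hw in
lemma l24 : PQ hO hg (y - (algebraMap k F (t * (7 * t ^ 3 - 12 * t ^ 2 + 8 * t - 2) /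
    (1 - t) ^ 3) * x + algebraMap k F (t ^ 2 * (2 * t - 1) * (2 * t ^ 2 - 2 * t + 1) *
      (3 * t ^ 2 - 3 * t + 1) / (1 - t) ^ 4))) (dL 2 4) := by
  refine pq_line hO hg p2 (p4 ht h1 h2 hw) ⟨?_, Or.inl ⟨?_, ?_⟩⟩
  · unfold bb cc
    field_simp
    ring
  · rw [← sub_ne_zero]
    have e : bb t - x4 t = t ^ 2 * (2 * t - 1) ^ 2 * (2 * t ^ 2 - 2 * t + 1) / (1 - t) ^ 4 := by
      unfold x4 bb cc
      field_simp
      ring
    rw [e]
    exact div_ne_zero (mul_ne_zero (mul_ne_zero (pow_ne_zero 2 ht) (pow_ne_zero 2 h2)) hv)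
      (pow_ne_zero 4 h1)
  · unfold x4 y4 bb cc
    field_simp
    ring

include ht h1 h2 hv hw in
/-- the functions of the point `2P` -/
lemma pqE2 (j : Fin 5) : PQ hO hg (u6 (c2 t) (X2 t x) (Y2 t x y) j) (UEN.x6 (b6 j)) := by
  have V2 := v2 (hO := hO) hg
  have V4 := v4 ht h1 h2 hw (hO := hO) hg
  have V6 := v6 ht h1 h2 hw (hO := hO) hg
  have L22 := l22 ht h1 h2 hv hw (hO := hO) hg
  have L24 := l24 ht h1 h2 hv hw (hO := hO) hg
  have n1 : 1 - algebraMap k F t ≠ 0 := by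
    have := (_root_.map_ne_zero (algebraMap k F)).mpr h1
    simpa only [map_sub, map_one] using this
  have n3 : 3 * algebraMap k F t ^ 2 - 3 * algebraMap k F t + 1 ≠ 0 := by
    have := (_root_.map_ne_zero (algebraMap k F)).mpr hw
    simpa only [map_sub, map_add, map_pow, map_one, map_mul, map_ofNat] using this
  obtain ⟨e1, e2, e3, e4⟩ := am2 (F := F) t
  obtain ⟨-, a2, a4, -, a6⟩ := am (F := F) t
  obtain ⟨g1, g2⟩ := xy2 t x y
  obtain ⟨k1, k2, k3⟩ := ab2_aux (x := x) (y := y) n1 n3 rfl rfl rfl rfl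
  fin_cases j
  · show PQ hO hg (X2 t x) (UEN.x6 (b6 0))
    exact (V2.smul (A2_ne h1 hw)).congr (by decide)
  · show PQ hO hg (X2 t x - algebraMap k F (UE6.bb (c2 t))) (UEN.x6 (b6 1))
    have e : X2 t x - algebraMap k F (UE6.bb (c2 t)) = algebraMap k F (A2 t) *
        (x - algebraMap k F (x4 t)) := by
      rw [g1, e4, k1, e1, a4]
    rw [e]
    exact (V4.smul (A2_ne h1 hw)).congr (by decide)
  · show PQ hO hg (X2 t x - algebraMap k F (UE6.cc (c2 t))) (UEN.x6 (b6 2))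
    have e : X2 t x - algebraMap k F (UE6.cc (c2 t)) = algebraMap k F (A2 t) *
        (x - algebraMap k F (x6 t)) := by
      rw [g1, e3, sub_neg_eq_add, k2, e1, a6, sub_neg_eq_add]
    rw [e]
    exact (V6.smul (A2_ne h1 hw)).congr (by decide)
  · show PQ hO hg (Y2 t x y) (UEN.x6 (b6 3))
    exact (L22.smul (C2_ne h1 hw)).congr (by decide)
  · show PQ hO hg (Y2 t x y - algebraMap k F (UE6.cc (c2 t)) * X2 t x) (UEN.x6 (b6 4))
    have e : Y2 t x y - algebraMap k F (UE6.cc (c2 t)) * X2 t x = algebraMap k F (C2 t) *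
        (y - (algebraMap k F (t * (7 * t ^ 3 - 12 * t ^ 2 + 8 * t - 2) /
        (1 - t) ^ 3) * x + algebraMap k F (t ^ 2 * (2 * t - 1) * (2 * t ^ 2 - 2 * t + 1) *
        (3 * t ^ 2 - 3 * t + 1) / (1 - t) ^ 4))) := by
      rw [g1, g2, e3, e2]
      simp only [map_div₀, map_mul, map_sub, map_add, map_pow, map_one, map_ofNat, map_neg]
      rw [← k3]
      ring
    rw [e]
    exact (L24.smul (C2_ne h1 hw)).congr (by decide)

include ht h1 h2 hv hw in
/-- **the point `2P`** -/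
theorem lk2 {hb2 : UE6.bb (c2 t) ≠ 0}
    [Fintype (AddSubgroup.zmultiples (P0 (UE6.cc (c2 t)) hb2))]
    [DecidableEq (AddSubgroup.zmultiples (P0 (UE6.cc (c2 t)) hb2))] :
    Lk hO (ord6 hb2) hg (gen2 h1 hw hg) UEN.x6 :=
  lk_of bas6 (x6_add _) (pq_u6 (ord6 hb2) _) (pqE2 ht h1 h2 hv hw hg)

end two

end Pool.Agent.UE12
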