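import Pool.Agent.Lib_helper7.N12.Tw
import Pool.Agent.Lib_helper72.KYa.Only
import Pool.Agent.Lib_helper72.KYb.Only
import Pool.Agent.Lib_helper72.KYc.Only

/-!
# Points of order twelve: the clause, from the curve `t = 2 / 3`
-/

set_option autoImplicit false

namespace Pool.Agent.FK4

open Pool.Agent.MK4 WeierstrassCurve.Affine

variable {k : Type*} [Field k] [DecidableEq k] [CharZero k] {W : WeierstrassCurve.Affine k}
  {F : Type*} [Field F] [Algebra k F] {X Y : F}

/-- **points of order twelve**, from the curve `t = 2 / 3` -/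
theorem twelve_of'' (hg : Generic W X Y) (P : W.Point) (h : addOrderOf P = 12)
    (a4 : To12t (2 / 3) P X Y → Line P X Y) : Twelve P X Y :=
  twelve_of' hg P h (KYa.only hg) (KYb.only hg) (KYc.only hg) a4

end Pool.Agent.FK4
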