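import Pool.Agent.Lib_helper76.UE12.R
import Pool.Agent.Lib_helper76.UEN.P
import Pool.Agent.Lib_helper76.UEN.F
import Pool.Agent.Lib_helper76.UE6.F6

/-!
# Points of order twelve: the exceptional triples come from three other curves
-/

set_option autoImplicit false
set_option linter.unusedSectionVars false

open scoped TensorProduct

namespace Pool.Agent.UE12

open WeierstrassCurve.Affine Polynomial WithZero GK UP
open UEG (Gen IsUn P0)
open UEN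
open TN (Wt Orb)
open FK4 (LineS Supp supp_iff Generic toGeneric UnitEqS)

/-- the conditions on the parameter -/
structure OK12 {k : Type*} [Field k] (t : k) : Prop where
  ind : ∀ l m n o p : ℤ, t ^ l * (t - 1) ^ m * (2 * t - 1) ^ n * (2 * t ^ 2 - 2 * t + 1) ^ o *
      (3 * t ^ 2 - 3 * t + 1) ^ p = 1 → l = 0 ∧ m = 0 ∧ n = 0 ∧ o = 0 ∧ p = 0
  e1 : 12 * (t * (1 - t)) ^ 2 - 1 ≠ 0
  e2 : 12 * (t * (1 - t)) ^ 2 - 6 * (t * (1 - t)) + 1 ≠ 0
  e3 : 20 * (t * (1 - t)) ^ 2 - 8 * (t * (1 - t)) + 1 ≠ 0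
  e4 : 6 * (t * (1 - t)) ^ 2 - 6 * (t * (1 - t)) + 1 ≠ 0
  e5 : 4 * (t * (1 - t)) ^ 2 - 6 * (t * (1 - t)) + 1 ≠ 0

section kd

variable {k : Type*} [Field k] {t : k}

lemma zz6 {a b c v w : k} (hw : w ≠ 0) (p q : ℤ) : (a * b * c ^ 2 / w) ^ p * (v ^ 2 / w) ^ q =
    a ^ p * b ^ p * c ^ (2 * p) * v ^ (2 * q) * w ^ (-p - q) := by
  rw [div_zpow, div_zpow, mul_zpow, mul_zpow, zpow_sub₀ hw, zpow_neg, zpow_mul, zpow_mul,
    zpow_ofNat, zpow_ofNat]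
  ring

lemma zz2 {a b c v w : k} (hw : w ≠ 0) (p q : ℤ) :
    (a ^ 4 * b ^ 4 / w ^ 4) ^ p * (c ^ 4 * v ^ 2 / w ^ 4) ^ q =
    a ^ (4 * p) * b ^ (4 * p) * c ^ (4 * q) * v ^ (2 * q) * w ^ (4 * (-p - q)) := by
  rw [div_zpow, div_zpow, mul_zpow, mul_zpow, zpow_mul w, zpow_sub₀ (zpow_ne_zero 4 hw), zpow_neg,
    zpow_mul a, zpow_mul b, zpow_mul c, zpow_mul v, zpow_ofNat, zpow_ofNat, zpow_ofNat,
    zpow_ofNat, zpow_ofNat]
  ring

lemma kd6 (h : OK12 t) (hw : 3 * t ^ 2 - 3 * t + 1 ≠ 0) : N6.Kd 0 (c6 t) := by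
  refine ⟨fun _ => ⟨fun p q e => ?_, ?_, ?_, ?_⟩, fun h => absurd h (by decide),
    fun h => absurd h (by decide), fun h => absurd h (by decide)⟩
  · have e1 : c6 t = t * (t - 1) * (2 * t - 1) ^ 2 / (3 * t ^ 2 - 3 * t + 1) := by
      unfold c6; rw [← neg_div]; congr 1; ring
    have e2 : c6 t + 1 = (2 * t ^ 2 - 2 * t + 1) ^ 2 / (3 * t ^ 2 - 3 * t + 1) := by
      rw [e1, eq_div_iff hw, add_mul, div_mul_cancel₀ _ hw]; ring
    rw [e2, e1, zz6 hw] at e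
    obtain ⟨h1, -, -, h2, -⟩ := h.ind _ _ _ _ _ e
    exact ⟨h1, by omega⟩
  · have e : 1 - 3 * c6 t = -(12 * (t * (1 - t)) ^ 2 - 1) / (3 * t ^ 2 - 3 * t + 1) := by
      rw [eq_div_iff hw]; unfold c6
      rw [sub_mul, mul_neg, _root_.neg_mul, mul_assoc, div_mul_cancel₀ _ hw]; ring
    rw [e]; exact div_ne_zero (neg_ne_zero.mpr h.e1) hw
  · have e : 1 + 3 * c6 t = (12 * (t * (1 - t)) ^ 2 - 6 * (t * (1 - t)) + 1) /
        (3 * t ^ 2 - 3 * t + 1) := by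
      rw [eq_div_iff hw]; unfold c6
      rw [add_mul, mul_neg, _root_.neg_mul, mul_assoc, div_mul_cancel₀ _ hw]; ring
    rw [e]; exact div_ne_zero h.e2 hw
  · have e : 1 + 5 * c6 t = (20 * (t * (1 - t)) ^ 2 - 8 * (t * (1 - t)) + 1) /
        (3 * t ^ 2 - 3 * t + 1) := by
      rw [eq_div_iff hw]; unfold c6
      rw [add_mul, mul_neg, _root_.neg_mul, mul_assoc, div_mul_cancel₀ _ hw]; ring
    rw [e]; exact div_ne_zero h.e3 hw

lemma kd2 (h : OK12 t) (hw : 3 * t ^ 2 - 3 * t + 1 ≠ 0) : N6.Kd 0 (c2 t) := by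
  have hw2 : (3 * t ^ 2 - 3 * t + 1) ^ 2 ≠ 0 := pow_ne_zero 2 hw
  refine ⟨fun _ => ⟨fun p q e => ?_, ?_, ?_, ?_⟩, fun h => absurd h (by decide),
    fun h => absurd h (by decide), fun h => absurd h (by decide)⟩
  · have e1 : c2 t ^ 2 = t ^ 4 * (t - 1) ^ 4 / (3 * t ^ 2 - 3 * t + 1) ^ 4 := by
      unfold c2; rw [neg_sq, div_pow]; congr 1 <;> ring
    have e2 : c2 t + 1 = (2 * t - 1) ^ 2 * (2 * t ^ 2 - 2 * t + 1) /
        (3 * t ^ 2 - 3 * t + 1) ^ 2 := by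
      rw [eq_div_iff hw2]; unfold c2
      rw [add_mul, _root_.neg_mul, div_mul_cancel₀ _ hw2]; ring
    have e3 : (c2 t + 1) ^ 2 = (2 * t - 1) ^ 4 * (2 * t ^ 2 - 2 * t + 1) ^ 2 /
        (3 * t ^ 2 - 3 * t + 1) ^ 4 := by
      rw [e2, div_pow]; congr 1 <;> ring
    have e4 : (c2 t ^ 2) ^ p * ((c2 t + 1) ^ 2) ^ q = 1 := by
      have : (c2 t ^ 2) ^ p * ((c2 t + 1) ^ 2) ^ q = (c2 t ^ p * (c2 t + 1) ^ q) ^ 2 := by
        rw [← zpow_natCast, ← zpow_natCast, ← zpow_natCast, mul_zpow, ← zpow_mul, ← zpow_mul,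
          ← zpow_mul, ← zpow_mul, mul_comm p, mul_comm q]
      rw [this, e, one_pow]
    rw [e1, e3, zz2 hw] at e4
    obtain ⟨h1, -, -, h2, -⟩ := h.ind _ _ _ _ _ e4
    exact ⟨by omega, by omega⟩
  · have e : 1 - 3 * c2 t = (12 * (t * (1 - t)) ^ 2 - 6 * (t * (1 - t)) + 1) /
        (3 * t ^ 2 - 3 * t + 1) ^ 2 := by
      rw [eq_div_iff hw2]; unfold c2
      rw [sub_mul, mul_neg, _root_.neg_mul, mul_assoc, div_mul_cancel₀ _ hw2]; ring
    rw [e]; exact div_ne_zero h.e2 hw2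
  · have e : 1 + 3 * c2 t = (6 * (t * (1 - t)) ^ 2 - 6 * (t * (1 - t)) + 1) /
        (3 * t ^ 2 - 3 * t + 1) ^ 2 := by
      rw [eq_div_iff hw2]; unfold c2
      rw [add_mul, mul_neg, _root_.neg_mul, mul_assoc, div_mul_cancel₀ _ hw2]; ring
    rw [e]; exact div_ne_zero h.e4 hw2
  · have e : 1 + 5 * c2 t = (4 * (t * (1 - t)) ^ 2 - 6 * (t * (1 - t)) + 1) /
        (3 * t ^ 2 - 3 * t + 1) ^ 2 := by
      rw [eq_div_iff hw2]; unfold c2
      rw [add_mul, mul_neg, _root_.neg_mul, mul_assoc, div_mul_cancel₀ _ hw2]; ring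
    rw [e]; exact div_ne_zero h.e5 hw2

end kd

/-! ### the three maps -/

/-- multiplication by two -/
def i2 : ZMod 6 → ZMod 12 := (![0, 2, 4, 6, 8, 10] : Fin 6 → Fin 12)

lemma i2_inj : ∀ a b : ZMod 6, i2 a = i2 b → a = b := by decide

lemma i2_sub : ∀ a b : ZMod 6, i2 (a - b) = i2 a - i2 b := by decide

lemma x6_mz : ∀ (S p : ZMod 6) (x : ZMod 12), UEN.x6 (mz S p) x = mz (i2 S) (i2 p) x := by
  decide +kernel

lemma r6_sub : ∀ a b : ZMod 12, r6 (a - b) = r6 a - r6 b := by decide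

lemma r4_sub : ∀ a b : ZMod 12, r4 (a - b) = r4 a - r4 b := by decide

section main

variable {k : Type*} [Field k] [DecidableEq k] [CharZero k] {t : k} (ht : t ≠ 0) (h1 : 1 - t ≠ 0)
  (h2 : 2 * t - 1 ≠ 0) (hv : 2 * t ^ 2 - 2 * t + 1 ≠ 0) (hw : 3 * t ^ 2 - 3 * t + 1 ≠ 0)
  (hi : OK12 t)
  {hb : bb t ≠ 0} {hO : addOrderOf (P0 (cc t) hb) = 12}
  {F : Type*} [Field F] [DecidableEq F] [Algebra k F] {x y : F}
  [Fintype (AddSubgroup.zmultiples (P0 (cc t) hb))]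
  [DecidableEq (AddSubgroup.zmultiples (P0 (cc t) hb))] (hg : Gen (Wt (bb t) (cc t)) x y)

variable (hO) in
/-- the four kinds of solutions -/
def Rd (f : F) : Prop := (∃ c : k, f = algebraMap k F c) ∨ RG hO id hg f ∨ RG hO (pb r6) hg f ∨
  RG hO (pb r4) hg f

omit [CharZero k] [Fintype (AddSubgroup.zmultiples (P0 (cc t) hb))]
  [DecidableEq (AddSubgroup.zmultiples (P0 (cc t) hb))] [DecidableEq F] in
lemma fin_of {W : WeierstrassCurve.Affine k} {P : W.Point} {n : ℕ} [NeZero n]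
    (hO : addOrderOf P = n) : Nonempty (Fintype (AddSubgroup.zmultiples P)) :=
  have : Finite (AddSubgroup.zmultiples P) := Finite.of_equiv _ (en hO).toEquiv
  ⟨Fintype.ofFinite _⟩

variable {hg}

lemma Rd.sub {f : F} (h : Rd hO hg (1 - f)) : Rd hO hg f := by
  rcases h with ⟨c, h⟩ | h | h | h
  · exact Or.inl ⟨1 - c, by rw [map_sub, map_one, ← h, sub_sub_cancel]⟩
  · exact Or.inr (Or.inl h.sub)
  · exact Or.inr (Or.inr (Or.inl h.sub))
  · exact Or.inr (Or.inr (Or.inr h.sub))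

lemma Rd.inv {f : F} (h : Rd hO hg f⁻¹) : Rd hO hg f := by
  rcases h with ⟨c, h⟩ | h | h | h
  · exact Or.inl ⟨c⁻¹, by rw [map_inv₀, ← h, inv_inv]⟩
  · exact Or.inr (Or.inl h.inv)
  · exact Or.inr (Or.inr (Or.inl h.inv))
  · exact Or.inr (Or.inr (Or.inr h.inv))

lemma Rd.tr {f x' y' : F} {hg' : Gen (Wt (bb t) (cc t)) x' y'} (h : Rd hO hg f) {T : ZMod 12}
    (e : gp hg' = gp hg + pp F (AddSubgroup.zmultiples (P0 (cc t) hb)) (en hO T)) :
    Rd hO hg' f := by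
  rcases h with h | h | h | h
  · exact Or.inl h
  · exact Or.inr (Or.inl (h.tr e T fun _ _ => rfl))
  · exact Or.inr (Or.inr (Or.inl (h.tr e (r6 T) fun M x => by
      show M (r6 (x - T)) = M (r6 x - r6 T)
      rw [r6_sub])))
  · exact Or.inr (Or.inr (Or.inr (h.tr e (r4 T) fun M x => by
      show M (r4 (x - T)) = M (r4 x - r4 T)
      rw [r4_sub])))

variable (hg)

include ht h1 h2 hv hw hi in
/-- functions of the quotient by `6P` -/
theorem case6 {f : F} {D E G : ZMod 6 → ℤ} (a1 : ∑ x, (D x - G x) = 0)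
    (a2 : ∑ x, (E x - G x) = 0) (a3 : ∑ x, (D x - G x) • x = 0) (a4 : ∑ x, (E x - G x) • x = 0)
    (h : Q3 hO hg f (pb r6 D) (pb r6 E) (pb r6 G)) : Rd hO hg f := by
  classical
  have hb6 := b6_ne ht h1 h2 hv hw
  obtain ⟨hft⟩ := fin_of (ord6 hb6)
  rcases (lk6 ht h1 h2 hv hw hg (hO := hO) (hb6 := hb6)).unit (fun _ _ _ => rfl)
    (fun f u1 u2 => (UE6.unitEqS6 (c6_ne ht h1 h2 hw) (c6_ne1 hv hw) hb6 (ord6 hb6)
      (toGeneric (gen6 ht h1 h2 hw hg)) (kd6 hi hw) f).mp ⟨supp_iff.mpr u1, supp_iff.mpr u2⟩ |>.imp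
      (fun ⟨c, _, _, e⟩ => ⟨c, e⟩) id) a1 a2 a3 a4 h with h3 | ⟨-, S, p, q, r, hn, -, h3⟩
  · exact Or.inl h3
  · exact Or.inr (Or.inr (Or.inl ⟨S, p, q, r, hn, h3⟩))

include ht h1 h2 hv hw hi in
/-- functions of the point `2P` -/
theorem case2 {f : F} {D E G : ZMod 6 → ℤ} (a1 : ∑ x, (D x - G x) = 0)
    (a2 : ∑ x, (E x - G x) = 0) (a3 : ∑ x, (D x - G x) • x = 0) (a4 : ∑ x, (E x - G x) • x = 0)
    (h : Q3 hO hg f (UEN.x6 D) (UEN.x6 E) (UEN.x6 G)) : Rd hO hg f := by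
  classical
  have hb2 := b2_ne ht h1 h2 hv hw
  obtain ⟨hft⟩ := fin_of (ord6 hb2)
  rcases (lk2 ht h1 h2 hv hw hg (hO := hO) (hb2 := hb2)).unit x6_sub
    (fun f u1 u2 => (UE6.unitEqS6 (c2_ne ht h1 hw) (c2_ne1 h2 hv hw) hb2 (ord6 hb2)
      (toGeneric (gen2 h1 hw hg)) (kd2 hi hw) f).mp ⟨supp_iff.mpr u1, supp_iff.mpr u2⟩ |>.imp
      (fun ⟨c, _, _, e⟩ => ⟨c, e⟩) id) a1 a2 a3 a4 h with h3 | ⟨-, S, p, q, r, hn, -, h3⟩
  · exact Or.inl h3
  · refine Or.inr (Or.inl ⟨i2 S, i2 p, i2 q, i2 r, ?_,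
      h3.congr (x6_mz S p) (x6_mz S r) (x6_mz S q)⟩)
    obtain ⟨n1, n2, n3, n4, n5, n6⟩ := hn
    unfold Nd
    simp only [← i2_sub]
    exact ⟨fun h => n1 (i2_inj _ _ h), fun h => n2 (i2_inj _ _ h), fun h => n3 (i2_inj _ _ h),
      fun h => n4 (i2_inj _ _ h), fun h => n5 (i2_inj _ _ h), fun h => n6 (i2_inj _ _ h)⟩

include ht h1 h2 hv hw in
/-- functions of the quotient by `4P` -/
theorem case4 {f : F} {D E G : ZMod 4 → ℤ} (a1 : ∑ x, (D x - G x) = 0)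
    (a2 : ∑ x, (E x - G x) = 0) (a3 : ∑ x, (D x - G x) • x = 0) (a4 : ∑ x, (E x - G x) • x = 0)
    (h : Q3 hO hg f (pb r4 D) (pb r4 E) (pb r4 G)) : Rd hO hg f := by
  classical
  have hb4 := b4_ne ht h1 h2 hw
  obtain ⟨hft⟩ := fin_of (ord4 hb4)
  rcases (lk4 ht h1 h2 hv hw hg (hO := hO) (hb4 := hb4)).unit (fun _ _ _ => rfl)
    (fun f u1 u2 => (FK4.unitEqS4 hb4 (ord4 hb4)
      (toGeneric (gen4 ht h1 h2 hv hg)) f).mp ⟨supp_iff.mpr u1, supp_iff.mpr u2⟩ |>.imp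
      (fun ⟨c, _, _, e⟩ => ⟨c, e⟩) id) a1 a2 a3 a4 h with h3 | ⟨-, S, p, q, r, hn, -, h3⟩
  · exact Or.inl h3
  · exact Or.inr (Or.inr (Or.inr ⟨S, p, q, r, hn, h3⟩))

lemma q3z {f : F} {A B C : Fin 12 → ℤ} {A' B' C' : ZMod 12 → ℤ} (h : Q3 hO hg f A B C)
    (a : ∀ x, z12 A x = A' x) (b : ∀ x, z12 B x = B' x) (c : ∀ x, z12 C x = C' x) :
    Q3 hO hg f A' B' C' := by
  rw [← funext a, ← funext b, ← funext c]; exact h

include ht h1 h2 hv hw hi in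
/-- the exceptional triples -/
theorem ex12 {f : F} {A B C : ZMod 12 → ℤ} (hE : Ex12 A B C) (h : Q3 hO hg f A B C) :
    Rd hO hg f := by
  rcases hE with ⟨rfl, rfl, rfl⟩ |
    ⟨rfl, rfl, rfl⟩ | ⟨rfl, rfl, rfl⟩ | ⟨rfl, rfl, rfl⟩ | ⟨rfl, rfl, rfl⟩ | ⟨rfl, rfl, rfl⟩ |
    ⟨rfl, rfl, rfl⟩ | ⟨rfl, rfl, rfl⟩ | ⟨rfl, rfl, rfl⟩ | ⟨rfl, rfl, rfl⟩ | ⟨rfl, rfl, rfl⟩ |
    ⟨rfl, rfl, rfl⟩ | ⟨rfl, rfl, rfl⟩ | ⟨rfl, rfl, rfl⟩ | ⟨rfl, rfl, rfl⟩ | ⟨rfl, rfl, rfl⟩ |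
    ⟨rfl, rfl, rfl⟩ | ⟨rfl, rfl, rfl⟩ | ⟨rfl, rfl, rfl⟩ | ⟨rfl, rfl, rfl⟩
  · exact case2 ht h1 h2 hv hw hi hg (D := z6 ![0, 0, 0, 0, 3, 0]) (E := z6 ![0, 0, 3, 0, 0, 0]) (G := z6 ![3, 0, 0, 0, 0, 0])
      (by decide) (by decide) (by decide) (by decide) (q3z hg h (by decide) (by decide) (by decide))
  · exact case2 ht h1 h2 hv hw hi hg (D := z6 ![0, 0, 2, 0, 0, 1]) (E := z6 ![0, 1, 0, 0, 2, 0]) (G := z6 ![2, 0, 0, 1, 0, 0])
      (by decide) (by decide) (by decide) (by decide) (q3z hg h (by decide) (by decide) (by decide))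
  · exact case2 ht h1 h2 hv hw hi hg (D := z6 ![0, 0, 3, 0, 0, 0]) (E := z6 ![0, 2, 0, 0, 1, 0]) (G := z6 ![3, 0, 0, 0, 0, 0])
      (by decide) (by decide) (by decide) (by decide) (q3z hg h (by decide) (by decide) (by decide))
  · exact case6 ht h1 h2 hv hw hi hg (D := z6 ![0, 0, 0, 2, 0, 0]) (E := z6 ![0, 1, 0, 0, 0, 1]) (G := z6 ![2, 0, 0, 0, 0, 0])
      (by decide) (by decide) (by decide) (by decide) (q3z hg h (by decide) (by decide) (by decide))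
  · exact case6 ht h1 h2 hv hw hi hg (D := z6 ![0, 0, 1, 1, 0, 0]) (E := z6 ![0, 1, 0, 0, 1, 0]) (G := z6 ![1, 0, 0, 0, 0, 1])
      (by decide) (by decide) (by decide) (by decide) (q3z hg h (by decide) (by decide) (by decide))
  · exact case6 ht h1 h2 hv hw hi hg (D := z6 ![0, 0, 2, 0, 0, 0]) (E := z6 ![0, 1, 0, 1, 0, 0]) (G := z6 ![1, 0, 0, 0, 1, 0])
      (by decide) (by decide) (by decide) (by decide) (q3z hg h (by decide) (by decide) (by decide))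
  · exact case6 ht h1 h2 hv hw hi hg (D := z6 ![0, 0, 0, 0, 3, 0]) (E := z6 ![0, 0, 3, 0, 0, 0]) (G := z6 ![3, 0, 0, 0, 0, 0])
      (by decide) (by decide) (by decide) (by decide) (q3z hg h (by decide) (by decide) (by decide))
  · exact case2 ht h1 h2 hv hw hi hg (D := z6 ![0, 0, 4, 0, 0, 2]) (E := z6 ![0, 2, 0, 0, 4, 0]) (G := z6 ![4, 0, 0, 2, 0, 0])
      (by decide) (by decide) (by decide) (by decide) (q3z hg h (by decide) (by decide) (by decide))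
  · exact case2 ht h1 h2 hv hw hi hg (D := z6 ![0, 0, 5, 0, 0, 1]) (E := z6 ![0, 1, 0, 0, 5, 0]) (G := z6 ![5, 0, 0, 1, 0, 0])
      (by decide) (by decide) (by decide) (by decide) (q3z hg h (by decide) (by decide) (by decide))
  · exact case4 ht h1 h2 hv hw hg (D := z4 ![0, 0, 2, 0]) (E := z4 ![0, 1, 0, 1]) (G := z4 ![2, 0, 0, 0])
      (by decide) (by decide) (by decide) (by decide) (q3z hg h (by decide) (by decide) (by decide))
  · exact case6 ht h1 h2 hv hw hi hg (D := z6 ![0, 0, 2, 0, 0, 1]) (E := z6 ![0, 1, 0, 0, 2, 0]) (G := z6 ![2, 0, 0, 1, 0, 0])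
      (by decide) (by decide) (by decide) (by decide) (q3z hg h (by decide) (by decide) (by decide))
  · exact case6 ht h1 h2 hv hw hi hg (D := z6 ![0, 0, 3, 0, 0, 0]) (E := z6 ![0, 2, 0, 0, 1, 0]) (G := z6 ![3, 0, 0, 0, 0, 0])
      (by decide) (by decide) (by decide) (by decide) (q3z hg h (by decide) (by decide) (by decide))
  · exact case6 ht h1 h2 hv hw hi hg (D := z6 ![0, 0, 0, 4, 0, 0]) (E := z6 ![0, 2, 0, 0, 0, 2]) (G := z6 ![4, 0, 0, 0, 0, 0])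
      (by decide) (by decide) (by decide) (by decide) (q3z hg h (by decide) (by decide) (by decide))
  · exact case6 ht h1 h2 hv hw hi hg (D := z6 ![0, 0, 2, 2, 0, 0]) (E := z6 ![0, 2, 0, 0, 2, 0]) (G := z6 ![2, 0, 0, 0, 0, 2])
      (by decide) (by decide) (by decide) (by decide) (q3z hg h (by decide) (by decide) (by decide))
  · exact case6 ht h1 h2 hv hw hi hg (D := z6 ![0, 0, 4, 0, 0, 0]) (E := z6 ![0, 2, 0, 2, 0, 0]) (G := z6 ![2, 0, 0, 0, 2, 0])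
      (by decide) (by decide) (by decide) (by decide) (q3z hg h (by decide) (by decide) (by decide))
  · exact case6 ht h1 h2 hv hw hi hg (D := z6 ![0, 0, 3, 0, 0, 3]) (E := z6 ![0, 3, 0, 0, 3, 0]) (G := z6 ![3, 0, 0, 3, 0, 0])
      (by decide) (by decide) (by decide) (by decide) (q3z hg h (by decide) (by decide) (by decide))
  · exact case6 ht h1 h2 hv hw hi hg (D := z6 ![0, 0, 3, 3, 0, 0]) (E := z6 ![0, 3, 0, 0, 3, 0]) (G := z6 ![3, 0, 0, 0, 0, 3])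
      (by decide) (by decide) (by decide) (by decide) (q3z hg h (by decide) (by decide) (by decide))
  · exact case4 ht h1 h2 hv hw hg (D := z4 ![0, 0, 4, 0]) (E := z4 ![0, 2, 0, 2]) (G := z4 ![4, 0, 0, 0])
      (by decide) (by decide) (by decide) (by decide) (q3z hg h (by decide) (by decide) (by decide))
  · exact case6 ht h1 h2 hv hw hi hg (D := z6 ![0, 0, 4, 0, 0, 2]) (E := z6 ![0, 2, 0, 0, 4, 0]) (G := z6 ![4, 0, 0, 2, 0, 0])
      (by decide) (by decide) (by decide) (by decide) (q3z hg h (by decide) (by decide) (by decide))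
  · exact case6 ht h1 h2 hv hw hi hg (D := z6 ![0, 0, 5, 0, 0, 1]) (E := z6 ![0, 1, 0, 0, 5, 0]) (G := z6 ![5, 0, 0, 1, 0, 0])
      (by decide) (by decide) (by decide) (by decide) (q3z hg h (by decide) (by decide) (by decide))

include ht h1 h2 hv hw hi in
/-- **the unit equation for a point of order twelve** -/
theorem unit12 (hM : Main Ex12) (hG : IndG (AddSubgroup.zmultiples (P0 (cc t) hb)) F) {f : F}
    (hf : IsUn (AddSubgroup.zmultiples (P0 (cc t) hb)) x y f)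
    (hf' : IsUn (AddSubgroup.zmultiples (P0 (cc t) hb)) x y (1 - f)) : Rd hO hg f := by
  have key : ∀ {f : F} {s : ZMod 12} {A B C : ZMod 12 → ℤ}, Ex12 A B C →
      Q3 hO hg f (fun x => A (x - s)) (fun x => B (x - s)) (fun x => C (x - s)) →
      Rd hO hg f := by
    intro f s A B C hE h
    obtain ⟨X', Y', hg', e'⟩ := gen_add hg (((en hO (-s) :
      AddSubgroup.zmultiples (P0 (cc t) hb)) : (Wt (bb t) (cc t)).Point))
    have e1 : gp hg' = gp hg + pp F (AddSubgroup.zmultiples (P0 (cc t) hb)) (en hO (-s)) := e'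
    have e2 : gp hg = gp hg' + pp F (AddSubgroup.zmultiples (P0 (cc t) hb)) (en hO s) := by
      rw [e1, map_neg, map_neg, neg_add_cancel_right]
    refine Rd.tr (hg := hg') (ex12 ht h1 h2 hv hw hi hg' hE ?_) e2
    have e3 : ∀ x : ZMod 12, x - (-s) - s = x := fun x => by ring
    exact (h.tr e1).congr (fun x => by rw [e3]) (fun x => by rw [e3]) (fun x => by rw [e3])
  rcases unitR hO hM hG hg (R := Rd hO hg) (fun f h => h.sub) (fun f h => h.inv)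
    (fun hn h => Or.inr (Or.inl ⟨_, _, _, _, hn, h⟩)) key hf hf' with h | h
  · exact Or.inl h
  · exact h

end main

end Pool.Agent.UE12
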