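import Pool.Agent.Lib_helper76.UE12.U
import Pool.Agent.Lib_helper76.UEN.L
import Pool.Agent.Lib_helper87.FAM.Siegel12
import Pool.Agent.Lib_helper7.UEL.Main12

/-!
# Points of order twelve: the unit equation
-/

set_option autoImplicit false
set_option linter.unusedSectionVars false

open scoped TensorProduct

namespace Pool.Agent.UE12

open WeierstrassCurve.Affine Polynomial WithZero GK UP
open UEG (Gen IsUn P0)
open UEN
open TN (Wt Orb)
open FK4 (LineS Supp supp_iff Generic toGeneric)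

variable {k : Type*} [Field k] [DecidableEq k] [CharZero k] {t : k}
  {F : Type*} [Field F] [Algebra k F] {x y : F}

/-- **the unit equation for a point of order twelve** -/
theorem unitEq12 (ht : t ≠ 0) (h1 : 1 - t ≠ 0) (h2 : 2 * t - 1 ≠ 0)
    (hv : 2 * t ^ 2 - 2 * t + 1 ≠ 0) (hw : 3 * t ^ 2 - 3 * t + 1 ≠ 0) (hi : OK12 t)
    (hb : bb t ≠ 0) (hO : addOrderOf (P0 (cc t) hb) = 12) (h : Generic (Wt (bb t) (cc t)) x y)
    (f : F) :
    (Supp (AddSubgroup.zmultiples (P0 (cc t) hb)) x y f ∧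
      Supp (AddSubgroup.zmultiples (P0 (cc t) hb)) x y (1 - f)) ↔
    (∃ c : k, c ≠ 0 ∧ c ≠ 1 ∧ f = algebraMap k F c) ∨
      LineS (AddSubgroup.zmultiples (P0 (cc t) hb)) x y f ∨
      LineS (AddSubgroup.zmultiples (P0 (UE6.cc (c6 t)) (b6_ne ht h1 h2 hv hw)))
        (X6 t x) (Y6 t x y) f ∨
      LineS (AddSubgroup.zmultiples (P0 (0 : k) (b4_ne ht h1 h2 hw))) (X4 t x) (Y4 t x y) f := by
  classical
  obtain ⟨hft⟩ := fin_of hO
  have hb6 := b6_ne ht h1 h2 hv hw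
  obtain ⟨hf6⟩ := fin_of (ord6 hb6)
  have hb4 := b4_ne ht h1 h2 hw
  obtain ⟨hf4⟩ := fin_of (ord4 hb4)
  have hg := h.toU
  have L6 := lk6 ht h1 h2 hv hw hg (hO := hO) (hb6 := hb6)
  have L4 := lk4 ht h1 h2 hv hw hg (hO := hO) (hb4 := hb4)
  have hG := indG_of (F := F) (GK.siegel12 hb h1 hO hi.ind)
  constructor
  · rintro ⟨u1, u2⟩
    rcases unit12 ht h1 h2 hv hw hi hg (hO := hO) UEL.main12 hG (supp_iff.mp u1)
      (supp_iff.mp u2) with ⟨a, rfl⟩ | ⟨S, p, q, r, hn, h3⟩ | h3 | h3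
    · left
      refine ⟨a, ?_, ?_, rfl⟩
      · rintro rfl; exact u1.1 (map_zero _)
      · rintro rfl; exact u2.1 (by rw [map_one, sub_self])
    · exact Or.inr (Or.inl (pencil8_line hn h3))
    · exact Or.inr (Or.inr (Or.inl (L6.line (fun _ _ _ => rfl) mz6_sum mz6_sum' h3)))
    · exact Or.inr (Or.inr (Or.inr (L4.line (fun _ _ _ => rfl) mz4_sum mz4_sum' h3)))
  · rintro (⟨a, h0, h1, rfl⟩ | h3 | h3 | h3)
    · refine ⟨FK4.supp_const h0, ?_⟩
      rw [← map_one (algebraMap k F), ← map_sub]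
      exact FK4.supp_const (sub_ne_zero.mpr (Ne.symm h1))
    · exact h3.supp
    · exact L6.supp (fun _ _ _ => rfl) h3
    · exact L4.supp (fun _ _ _ => rfl) h3

end Pool.Agent.UE12
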