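import Pool.Agent.Lib_helper76.UE12.V
import Pool.Agent.Lib_helper76.UEN.N
import Pool.Agent.Lib_helper24.FAM.DefsU

/-!
# Points of order twelve: the clause
-/

set_option autoImplicit false
set_option linter.unusedSectionVars false

open scoped TensorProduct

namespace Pool.Agent.UE12

open WeierstrassCurve.Affine Polynomial WithZero GK UP
open UEG (Gen IsUn P0 ns0)
open UEN
open TN (Wt Orb)
open FK4 (LineS Supp supp_iff Generic toGeneric ClosedIn SameS OnlyConst Indep5 LineT WTate UnitEq12)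

section defs

variable {k : Type*} [Field k] [DecidableEq k] {W : WeierstrassCurve.Affine k} {F : Type*}
  [Field F] [Algebra k F]

/-- the ordinate does not matter -/
lemma lineT_iff {b c : k} {x y f : F} (hb : b ≠ 0)
    (he : y ^ 2 + (1 - algebraMap k F c) * x * y - algebraMap k F b * y =
      x ^ 3 - algebraMap k F b * x ^ 2) :
    LineT b c x f ↔ LineS (AddSubgroup.zmultiples (P0 c hb)) x y f := by
  constructor
  · rintro ⟨y', h, he', hL⟩
    have e : (y' - y) * (y' + y + (1 - algebraMap k F c) * x - algebraMap k F b) = 0 := by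
      linear_combination he' - he
    have hL' : LineS (AddSubgroup.zmultiples (P0 c hb)) x y' f := hL
    rcases mul_eq_zero.mp e with h1 | h1
    · rw [← sub_eq_zero.mp h1]; exact hL'
    · refine lineS_neg ?_ hL'
      show y' = -y - algebraMap k F (1 - c) * x - algebraMap k F (-b)
      rw [map_sub, map_one, map_neg]
      linear_combination h1
  · intro h
    exact ⟨y, ns0 hb, he, h⟩

end defs

variable {k : Type*} [Field k] [DecidableEq k] [CharZero k] {t : k}
  {F : Type*} [Field F] [Algebra k F] {x y : F}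

/-- the conditions of the clause -/
lemma ok_of (hw : 3 * t ^ 2 - 3 * t + 1 ≠ 0)
    (hi : Indep5 t (t - 1) (2 * t - 1) (2 * t ^ 2 - 2 * t + 1) (3 * t ^ 2 - 3 * t + 1))
    (ha : ∀ a : k, a = t * (t - 1) * (2 * t - 1) ^ 2 / (3 * t ^ 2 - 3 * t + 1) ∨
      a = -(t ^ 2 * (1 - t) ^ 2 / (3 * t ^ 2 - 3 * t + 1) ^ 2) →
      3 * a ≠ 1 ∧ 3 * a ≠ -1 ∧ 5 * a ≠ -1) : OK12 t := by
  obtain ⟨g1, g2, g3⟩ := ha _ (Or.inl rfl)
  obtain ⟨-, g4, g5⟩ := ha _ (Or.inr rfl)
  have hw2 : (3 * t ^ 2 - 3 * t + 1) ^ 2 ≠ 0 := pow_ne_zero 2 hw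
  refine ⟨hi, fun h => g1 ?_, fun h => g2 ?_, fun h => g3 ?_, fun h => g4 ?_, fun h => g5 ?_⟩
  · rw [mul_div_assoc', div_eq_iff hw]; linear_combination h
  · rw [mul_div_assoc', div_eq_iff hw]; linear_combination h
  · rw [mul_div_assoc', div_eq_iff hw]; linear_combination h
  · rw [mul_neg, mul_div_assoc', neg_eq_iff_eq_neg, neg_neg, div_eq_iff hw2]
    linear_combination -h
  · rw [mul_neg, mul_div_assoc', neg_eq_iff_eq_neg, neg_neg, div_eq_iff hw2]
    linear_combination -h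

/-- **the unit equation** -/
theorem unitEq12' {W : WeierstrassCurve.Affine k} {X Y : F} {P : W.Point} (ht : t ≠ 0)
    (h1 : 1 - t ≠ 0) (h2 : 2 * t - 1 ≠ 0)
    (hv : 2 * t ^ 2 - 2 * t + 1 ≠ 0) (hw : 3 * t ^ 2 - 3 * t + 1 ≠ 0) (hi : OK12 t)
    (hb : bb t ≠ 0) (hO : addOrderOf (P0 (cc t) hb) = 12) (h : Generic (Wt (bb t) (cc t)) x y)
    (hS : SameS (AddSubgroup.zmultiples P) X Y (AddSubgroup.zmultiples (P0 (cc t) hb)) x y) :
    UnitEq12 (AddSubgroup.zmultiples P) X Y t x := by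
  classical
  refine ⟨cc t, x4 t, x5 t, x6 t, c6 t, b4 t, X6 t x, X4 t x, ?_, rfl, ?_, ?_, ?_, ?_, rfl, rfl,
    fun f => ?_⟩
  · unfold cc; congr 1; ring
  · unfold x5 x4; field_simp
  · unfold x6
    have h1' : t - 1 ≠ 0 := fun h => h1 (by linear_combination -h)
    rw [eq_div_iff h1', ← neg_div, div_mul_eq_mul_div, div_eq_iff h1]
    ring
  · unfold c6; rw [← neg_div]; congr 1; ring
  · unfold b4; rw [← neg_div]; congr 1; ring
  · have e6 := eq6 h1 h2 hw h.toU
    have hbc : UE6.bb (c6 t) = c6 t + c6 t ^ 2 := by unfold UE6.bb; ring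
    have k6 : LineT (c6 t + c6 t ^ 2) (c6 t) (X6 t x) f ↔
        LineS (AddSubgroup.zmultiples (P0 (UE6.cc (c6 t)) (b6_ne ht h1 h2 hv hw)))
          (X6 t x) (Y6 t x y) f := by
      rw [← hbc]
      exact lineT_iff (b6_ne ht h1 h2 hv hw) e6
    have k4 : LineT (b4 t) 0 (X4 t x) f ↔
        LineS (AddSubgroup.zmultiples (P0 (0 : k) (b4_ne ht h1 h2 hw)))
          (X4 t x) (Y4 t x y) f := lineT_iff (b4_ne ht h1 h2 hw) (eq4 h1 h2 h.toU)
    rw [k6, k4, hS.supp, hS.supp, hS.lineS]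
    exact unitEq12 ht h1 h2 hv hw hi hb hO h f

end Pool.Agent.UE12
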